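import Pool.Agent.Helper75.Xi.RegC2

set_option autoImplicit false
set_option maxHeartbeats 1000000

open Complex Filter Topology Metric Set

namespace Pool.Agent.Helper75.HD

/-- Gronwall with comparison to the initial value -/
lemma gron {φ φ' : ℝ → ℂ} {S K : ℝ} (hK : 0 < K)
    (hφ : ∀ s ∈ Icc 0 S, HasDerivAt φ (φ' s) s) (hb : ∀ s ∈ Icc 0 S, ‖φ' s‖ ≤ K * ‖φ s‖) :
    ∀ s ∈ Icc 0 S, ‖φ s - φ 0‖ ≤ ‖φ 0‖ * (Real.exp (K * s) - 1) := by
  intro s hs
  have h1 := norm_le_gronwallBound_of_norm_deriv_right_le (f := fun s => φ s - φ 0) (f' := φ')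
    (δ := 0) (K := K) (ε := K * ‖φ 0‖) (a := 0) (b := S)
    (fun x hx => ((hφ x hx).sub_const (φ 0)).continuousAt.continuousWithinAt)
    (fun x hx => ((hφ x (Ico_subset_Icc_self hx)).sub_const (φ 0)).hasDerivWithinAt)
    (by simp)
    (fun x hx => by
      refine (hb x (Ico_subset_Icc_self hx)).trans ?_
      rw [← mul_add]
      refine mul_le_mul_of_nonneg_left ?_ hK.le
      calc ‖φ x‖ = ‖(φ x - φ 0) + φ 0‖ := by congr 1; ring
        _ ≤ _ := norm_add_le _ _) s hs
  rw [gronwallBound_of_K_ne_0 hK.ne'] at h1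
  simp only [zero_mul, sub_zero, zero_add] at h1
  refine h1.trans (le_of_eq ?_)
  field_simp

/-- comparison along a segment -/
lemma seg {f : ℂ → ℂ} {a d p : ℂ} {S K : ℝ} (hK : 0 < K)
    (hd : ∀ s ∈ Icc (0 : ℝ) S, DifferentiableAt ℂ f (a + s * d))
    (hb : ∀ s ∈ Icc (0 : ℝ) S, ‖deriv f (a + s * d) * d - p * f (a + s * d)‖ ≤
      K * ‖f (a + s * d)‖) :
    ∀ s ∈ Icc (0 : ℝ) S, ‖f (a + s * d) - f a * cexp (p * s)‖ ≤
      ‖f a‖ * Real.exp (p.re * s) * (Real.exp (K * s) - 1) := by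
  intro s hs
  have hline : ∀ s : ℝ, HasDerivAt (fun s : ℝ => a + s * d) d s := by
    intro s
    have := ((hasDerivAt_id (s : ℂ)).comp_ofReal.mul_const d).const_add a
    simpa using this
  have hexp : ∀ s : ℝ, HasDerivAt (fun s : ℝ => cexp (-(p * s))) (cexp (-(p * s)) * (-p)) s := by
    intro s
    have h1 : HasDerivAt (fun s : ℝ => -(p * s)) (-p) s := by
      have := ((hasDerivAt_id (s : ℂ)).comp_ofReal.const_mul p).fun_neg
      simpa using this
    exact h1.cexp
  have h := gron (φ := fun s : ℝ => f (a + s * d) * cexp (-(p * s)))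
    (φ' := fun s : ℝ => (deriv f (a + s * d) * d - p * f (a + s * d)) * cexp (-(p * s)))
    (S := S) (K := K) hK
    (fun s hs => by
      have h2 : HasDerivAt (fun s : ℝ => f (a + s * d)) (deriv f (a + s * d) * d) s :=
        HasDerivAt.comp (h₂ := f) (h := fun s : ℝ => a + s * d) s (hd s hs).hasDerivAt (hline s)
      have := h2.mul (hexp s)
      refine this.congr_deriv ?_
      ring)
    (fun s hs => by
      rw [norm_mul, norm_mul, ← mul_assoc]
      exact mul_le_mul_of_nonneg_right (hb s hs) (norm_nonneg _)) s hs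
  simp only [ofReal_zero, zero_mul, add_zero, mul_zero, neg_zero, Complex.exp_zero, mul_one] at h
  have e1 : f (a + s * d) - f a * cexp (p * s) =
      (f (a + s * d) * cexp (-(p * s)) - f a) * cexp (p * s) := by
    have : cexp (-(p * s)) * cexp (p * s) = 1 := by rw [← Complex.exp_add]; simp
    linear_combination (-(f (a + s * d))) * this
  rw [e1, norm_mul, Complex.norm_exp]
  have e2 : (p * (s : ℂ)).re = p.re * s := by simp
  rw [e2]
  calc _ ≤ (‖f a‖ * (Real.exp (K * s) - 1)) * Real.exp (p.re * s) :=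
        mul_le_mul_of_nonneg_right h (Real.exp_pos _).le
    _ = _ := by ring

lemma seg_le {f : ℂ → ℂ} {a d p : ℂ} {S K : ℝ} (hK : 0 < K)
    (hd : ∀ s ∈ Icc (0 : ℝ) S, DifferentiableAt ℂ f (a + s * d))
    (hb : ∀ s ∈ Icc (0 : ℝ) S, ‖deriv f (a + s * d) * d - p * f (a + s * d)‖ ≤
      K * ‖f (a + s * d)‖) :
    ∀ s ∈ Icc (0 : ℝ) S, ‖f (a + s * d)‖ ≤ ‖f a‖ * Real.exp ((p.re + K) * s) := by
  intro s hs
  have h := seg hK hd hb s hs
  have e2 : (p * (s : ℂ)).re = p.re * s := by simp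
  calc ‖f (a + s * d)‖ = ‖(f (a + s * d) - f a * cexp (p * s)) + f a * cexp (p * s)‖ := by
        congr 1; ring
    _ ≤ ‖f (a + s * d) - f a * cexp (p * s)‖ + ‖f a * cexp (p * s)‖ := norm_add_le _ _
    _ ≤ ‖f a‖ * Real.exp (p.re * s) * (Real.exp (K * s) - 1) + ‖f a‖ * Real.exp (p.re * s) := by
        gcongr
        rw [norm_mul, Complex.norm_exp, e2]
    _ = ‖f a‖ * Real.exp ((p.re + K) * s) := by rw [add_mul, Real.exp_add]; ring

/-- horizontal comparison from the logarithmic derivative, with both signs of the direction -/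
lemma hor {f : ℂ → ℂ} {w : ℂ} {S P K : ℝ} (hK : 0 < K) {σ : ℝ} (hσ : |σ| = 1) (hS : 0 ≤ S)
    (hd : ∀ s ∈ Icc (0 : ℝ) S, DifferentiableAt ℂ f (w + s * σ))
    (hne : ∀ s ∈ Icc (0 : ℝ) S, f (w + s * σ) ≠ 0)
    (hb : ∀ s ∈ Icc (0 : ℝ) S, ‖logDeriv f (w + s * σ) - P‖ ≤ K) :
    ‖f (w + S * σ)‖ ≤ ‖f w‖ * Real.exp ((σ * P + K) * S) := by
  have h := seg_le (f := f) (a := w) (d := σ) (p := ((σ * P : ℝ) : ℂ)) (S := S) (K := K) hK hd
    (fun s hs => by
      have h1 := hb s hs
      have e1 : deriv f (w + s * σ) * σ - ((σ * P : ℝ) : ℂ) * f (w + s * σ) =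
          (logDeriv f (w + s * σ) - P) * σ * f (w + s * σ) := by
        rw [logDeriv_apply]
        have := hne s hs
        push_cast
        field_simp
      rw [e1, norm_mul, norm_mul, Complex.norm_real, Real.norm_eq_abs, hσ, mul_one]
      exact mul_le_mul_of_nonneg_right h1 (norm_nonneg _)) S ⟨hS, le_rfl⟩
  simpa using h

/-- if `F' = G`, `F ρ = 0` and `G` is close to `exp (P x)` to the left of `ρ`, then `F` is
large to the left of `ρ` -/
lemma osc {F G : ℂ → ℂ} {ρ : ℂ} {P L : ℝ} (hP : 0 < P) (hPL : 3 ≤ P * L)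
    (hF : ∀ s ∈ Icc (0 : ℝ) L, HasDerivAt F (G (ρ - s)) (ρ - s))
    (hG : ∀ s ∈ Icc (0 : ℝ) L, DifferentiableAt ℂ G (ρ - s))
    (hG2 : ∀ s ∈ Icc (0 : ℝ) L, ‖deriv G (ρ - s) - P * G (ρ - s)‖ ≤ P / 4 * ‖G (ρ - s)‖)
    (h0 : F ρ = 0) : ‖G ρ‖ ≤ 2 * P * ‖F (ρ - L)‖ := by
  have hL : 0 < L := by
    by_contra hcon
    push Not at hcon
    nlinarith
  have hGs : ∀ s ∈ Icc (0 : ℝ) L, ‖G (ρ - s) - G ρ * cexp (-(P * s))‖ ≤
      ‖G ρ‖ * (Real.exp (-(3 / 4 * P * s)) - Real.exp (-(P * s))) := by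
    intro s hs
    have h := seg (f := G) (a := ρ) (d := -1) (p := -(P : ℂ)) (S := L) (K := P / 4)
      (by positivity)
      (fun s hs => by
        have := hG s hs
        rwa [mul_neg_one, ← sub_eq_add_neg])
      (fun s hs => by
        have := hG2 s hs
        have e0 : ρ + (s : ℂ) * -1 = ρ - s := by ring
        rw [e0, ← norm_neg]
        have e : -(deriv G (ρ - s) * -1 - -(P : ℂ) * G (ρ - s)) = deriv G (ρ - s) - P * G (ρ - s) := by
          ring
        rwa [e]) s hs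
    rw [mul_neg_one, ← sub_eq_add_neg] at h
    have e1 : -(P : ℂ) * s = -(P * s) := by ring
    have e2 : (-(P : ℂ)).re * s = -(P * s) := by simp
    rw [e1, e2] at h
    refine h.trans (le_of_eq ?_)
    rw [mul_assoc, mul_sub, mul_one, ← Real.exp_add]
    congr 3
    ring
  have hP0 : (P : ℂ) ≠ 0 := by exact_mod_cast hP.ne'
  have hexp : ∀ s : ℝ, HasDerivAt (fun s : ℝ => cexp (-(P * s))) (cexp (-(P * s)) * (-P)) s := by
    intro s
    have h1 : HasDerivAt (fun s : ℝ => -((P : ℂ) * s)) (-(P : ℂ)) s := by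
      have := ((hasDerivAt_id (s : ℂ)).comp_ofReal.const_mul (P : ℂ)).fun_neg
      simpa using this
    exact h1.cexp
  have hE : ∀ s ∈ Icc (0 : ℝ) L, HasDerivAt
      (fun s : ℝ => F (ρ - s) - G ρ * (cexp (-(P * s)) - 1) / P)
      (-(G (ρ - s) - G ρ * cexp (-(P * s)))) s := by
    intro s hs
    have hline : HasDerivAt (fun s : ℝ => ρ - (s : ℂ)) (-1) s := by
      have := ((hasDerivAt_id (s : ℂ)).comp_ofReal).const_sub ρ
      simpa using this
    have h2 : HasDerivAt (fun s : ℝ => F (ρ - s)) (G (ρ - s) * (-1)) s :=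
      HasDerivAt.comp (h₂ := F) (h := fun s : ℝ => ρ - (s : ℂ)) s (hF s hs) hline
    have h3 := (((hexp s).sub_const 1).const_mul (G ρ)).div_const (P : ℂ)
    have h4 := h2.sub h3
    refine h4.congr_deriv ?_
    field_simp
    ring
  have hB : ∀ s : ℝ, HasDerivAt (fun s : ℝ => ‖G ρ‖ * (4 / (3 * P) * (1 - Real.exp (-(3 / 4 * P * s)))
      - 1 / P * (1 - Real.exp (-(P * s)))))
      (‖G ρ‖ * (Real.exp (-(3 / 4 * P * s)) - Real.exp (-(P * s)))) s := by
    intro s
    have h1 : ∀ c : ℝ, HasDerivAt (fun s : ℝ => Real.exp (-(c * s))) (Real.exp (-(c * s)) * (-c)) s := by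
      intro c
      have : HasDerivAt (fun s : ℝ => -(c * s)) (-c) s := by
        have := ((hasDerivAt_id s).const_mul c).fun_neg
        simpa using this
      exact this.exp
    have h2 := (((h1 (3 / 4 * P)).const_sub 1).const_mul (4 / (3 * P))).sub
      (((h1 P).const_sub 1).const_mul (1 / P))
    have h3 := h2.const_mul ‖G ρ‖
    refine h3.congr_deriv ?_
    field_simp
  have hfin := image_norm_le_of_norm_deriv_right_le_deriv_boundary
    (f := fun s : ℝ => F (ρ - s) - G ρ * (cexp (-(P * s)) - 1) / P)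
    (f' := fun s => -(G (ρ - s) - G ρ * cexp (-(P * s)))) (a := 0) (b := L)
    (fun s hs => (hE s hs).continuousAt.continuousWithinAt)
    (fun s hs => (hE s (Ico_subset_Icc_self hs)).hasDerivWithinAt)
    (by simp [h0]) hB
    (fun s hs => by rw [norm_neg]; exact hGs s (Ico_subset_Icc_self hs))
    (x := L) ⟨hL.le, le_rfl⟩
  -- final computation
  set e := Real.exp (-(P * L)) with he
  have he1 : e ≤ 1 / 12 := by
    have h1 : e ≤ Real.exp (-3) := Real.exp_le_exp.2 (by linarith)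
    have h2 : Real.exp (-3) ≤ 1 / 12 := by
      rw [Real.exp_neg]
      have h3 : (12 : ℝ) ≤ Real.exp 3 := by
        have h4 : Real.exp 3 = Real.exp 1 ^ 3 := by rw [← Real.exp_nat_mul]; norm_num
        rw [h4]
        have h5 := Real.exp_one_gt_d9
        calc (12 : ℝ) ≤ 2.7 ^ 3 := by norm_num
          _ ≤ Real.exp 1 ^ 3 := by gcongr; linarith
      rw [inv_eq_one_div]
      exact one_div_le_one_div_of_le (by norm_num) h3
    linarith
  have he0 : 0 < e := Real.exp_pos _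
  have hce : cexp (-(P * L)) = (e : ℂ) := by rw [he]; push_cast; rfl
  simp only [hce] at hfin
  have h5 : ‖G ρ * ((e : ℂ) - 1) / P‖ = ‖G ρ‖ * (1 - e) / P := by
    rw [norm_div, norm_mul, Complex.norm_real, Real.norm_of_nonneg hP.le]
    congr 2
    have : ((e : ℂ) - 1) = ((e - 1 : ℝ) : ℂ) := by push_cast; ring
    rw [this, Complex.norm_real, Real.norm_eq_abs, abs_of_nonpos (by linarith)]
    ring
  have h6 : ‖G ρ‖ * (1 - e) / P ≤ ‖F (ρ - L)‖ +
      ‖G ρ‖ * (4 / (3 * P) * (1 - Real.exp (-(3 / 4 * P * L))) - 1 / P * (1 - e)) := by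
    rw [← h5]
    calc ‖G ρ * ((e : ℂ) - 1) / P‖ = ‖F (ρ - L) - (F (ρ - L) - G ρ * ((e : ℂ) - 1) / P)‖ := by
          congr 1; ring
      _ ≤ ‖F (ρ - L)‖ + ‖F (ρ - L) - G ρ * ((e : ℂ) - 1) / P‖ := norm_sub_le _ _
      _ ≤ _ := by gcongr
  have h7 : 0 < Real.exp (-(3 / 4 * P * L)) := Real.exp_pos _
  have h8 : ‖G ρ‖ * (4 / (3 * P) * (1 - Real.exp (-(3 / 4 * P * L))) - 1 / P * (1 - e)) ≤
      ‖G ρ‖ * ((1 / 3 + e) / P) := by
    refine mul_le_mul_of_nonneg_left ?_ (norm_nonneg _)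
    have e1 : (1 / 3 + e) / P = 4 / (3 * P) * 1 - 1 / P * (1 - e) := by field_simp; ring
    rw [e1]
    gcongr
    linarith
  have h9 : ‖G ρ‖ * ((2 / 3 - 2 * e) / P) ≤ ‖F (ρ - L)‖ := by
    have e1 : ‖G ρ‖ * ((2 / 3 - 2 * e) / P) = ‖G ρ‖ * (1 - e) / P - ‖G ρ‖ * ((1 / 3 + e) / P) := by
      field_simp; ring
    rw [e1]
    linarith
  have h10 : ‖G ρ‖ * ((1 / 2) / P) ≤ ‖F (ρ - L)‖ := by
    refine le_trans (mul_le_mul_of_nonneg_left ?_ (norm_nonneg _)) h9
    gcongr
    linarith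
  calc ‖G ρ‖ = 2 * P * (‖G ρ‖ * ((1 / 2) / P)) := by field_simp
    _ ≤ 2 * P * ‖F (ρ - L)‖ := by gcongr

/-- a form of the three circles theorem -/
lemma circ3 {ψ : ℂ → ℂ} {c : ℂ} {r r2 K M : ℝ} (hr : 1 < r) (hr2 : r2 < r)
    (hψ : DifferentiableOn ℂ ψ (closedBall c r)) (hK0 : 0 ≤ K)
    (hK : ∀ z ∈ closedBall c 1, ‖ψ z‖ ≤ K) (hM : ∀ z ∈ closedBall c r, ‖ψ z‖ ≤ M) (N : ℕ)
    {z : ℂ} (hz : z ∈ closedBall c r2) (h12 : 1 ≤ r2) :
    ‖ψ z‖ ≤ r2 ^ N * max K (M / r ^ N) := by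
  have hr0 : 0 < r := by linarith
  rcases le_or_gt ‖z - c‖ 1 with h1 | h1
  · have h2 := hK z (by rwa [mem_closedBall, dist_eq_norm])
    calc ‖ψ z‖ ≤ K := h2
      _ ≤ 1 * max K (M / r ^ N) := by rw [one_mul]; exact le_max_left _ _
      _ ≤ r2 ^ N * max K (M / r ^ N) :=
        mul_le_mul_of_nonneg_right (one_le_pow₀ h12) (hK0.trans (le_max_left _ _))
  · have hzr : ‖z - c‖ ≤ r2 := by rwa [mem_closedBall, dist_eq_norm] at hz
    set U : Set ℂ := ball c r \ closedBall c 1 with hU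
    have hUo : IsOpen U := isOpen_ball.sdiff isClosed_closedBall
    have hcl : closure U ⊆ closedBall c r \ ball c 1 := by
      refine closure_minimal ?_ (isClosed_closedBall.sdiff isOpen_ball)
      intro x hx
      exact ⟨ball_subset_closedBall hx.1, fun h => hx.2 (ball_subset_closedBall h)⟩
    have hne : ∀ x ∈ closure U, (x - c) ^ N ≠ 0 := by
      intro x hx
      have h2 := (hcl hx).2
      rw [mem_ball, dist_eq_norm, not_lt] at h2
      refine pow_ne_zero _ ?_
      intro h3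
      rw [h3] at h2
      simp at h2
      linarith
    have hdc : DiffContOnCl ℂ (fun x => ψ x / (x - c) ^ N) U := by
      refine DifferentiableOn.diffContOnCl ?_
      intro x hx
      have hx1 := hcl hx
      refine (((hψ x hx1.1).mono ?_).div ?_ (hne x hx))
      · intro y hy
        exact (hcl hy).1
      · fun_prop
    have hfr : ∀ x ∈ frontier U, ‖ψ x / (x - c) ^ N‖ ≤ max K (M / r ^ N) := by
      intro x hx
      have hxc := hcl (frontier_subset_closure hx)
      have hxn : x ∉ U := by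
        rw [hUo.frontier_eq] at hx
        exact hx.2
      have hx1 : ‖x - c‖ ≤ r := by
        have := hxc.1
        rwa [mem_closedBall, dist_eq_norm] at this
      have hx2 : 1 ≤ ‖x - c‖ := by
        have := hxc.2
        rwa [mem_ball, dist_eq_norm, not_lt] at this
      rw [norm_div, norm_pow]
      rcases hx1.lt_or_eq with h3 | h3
      · have h4 : ‖x - c‖ ≤ 1 := by
          by_contra hcon
          push Not at hcon
          refine hxn ⟨by rwa [mem_ball, dist_eq_norm], ?_⟩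
          rw [mem_closedBall, dist_eq_norm, not_le]
          exact hcon
        have h5 : ‖x - c‖ = 1 := le_antisymm h4 hx2
        rw [h5, one_pow, div_one]
        exact (hK x (by rw [mem_closedBall, dist_eq_norm]; exact h4)).trans (le_max_left _ _)
      · rw [h3]
        refine le_trans ?_ (le_max_right _ _)
        gcongr
        exact hM x hxc.1
    have hbd : Bornology.IsBounded U := isBounded_ball.subset sdiff_subset
    have hzU : z ∈ closure U := by
      refine subset_closure ⟨?_, ?_⟩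
      · rw [mem_ball, dist_eq_norm]; linarith
      · rw [mem_closedBall, dist_eq_norm, not_le]; exact h1
    have h2 := Complex.norm_le_of_forall_mem_frontier_norm_le hbd hdc hfr hzU
    rw [norm_div, norm_pow, div_le_iff₀ (by positivity)] at h2
    refine h2.trans ?_
    rw [mul_comm]
    refine mul_le_mul_of_nonneg_right ?_ (hK0.trans (le_max_left _ _))
    gcongr

end Pool.Agent.Helper75.HD
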