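import Pool.Agent.Helper75.HD.Seg

set_option autoImplicit false
set_option maxHeartbeats 1000000

open Complex Filter Topology Metric Set

namespace Pool.Agent.Helper75.HD

open Pool.Agent.Helper75.Jen Pool.Agent.Helper75.Xi

lemma gamma_half (y : ℝ) : ‖Complex.Gamma (1 / 2 + y * I)‖ ^ 2 = Real.pi / Real.cosh (Real.pi * y) := by
  have h1 := Complex.Gamma_mul_Gamma_one_sub (1 / 2 + y * I)
  have h2 : (1 : ℂ) - (1 / 2 + y * I) = (starRingEnd ℂ) (1 / 2 + y * I) := by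
    simp only [map_add, map_div₀, map_one, map_ofNat, map_mul, conj_ofReal, conj_I]
    ring
  rw [h2, Complex.Gamma_conj, Complex.mul_conj] at h1
  have h3 : Complex.sin (Real.pi * (1 / 2 + y * I)) = ((Real.cosh (Real.pi * y) : ℝ) : ℂ) := by
    have e : (Real.pi : ℂ) * (1 / 2 + y * I) = Real.pi * y * I + Real.pi / 2 := by ring
    rw [e, Complex.sin_add_pi_div_two, Complex.cos_mul_I]
    push_cast
    rfl
  rw [h3] at h1
  rw [Complex.normSq_eq_norm_sq] at h1
  exact_mod_cast h1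

lemma Gx_half {t : ℝ} (ht : 0 < t) :
    ‖Gx (1 / 2 + t * I)‖ ^ 2 = 16 * t ^ 2 * (1 + t ^ 2) / Real.cosh (Real.pi * t / 2) := by
  have e1 : Gx (1 / 2 + t * I) = (4 * t * I * (1 + t * I)) * (Real.pi ^ (-(1 + t * I) / 2 : ℂ) *
      Complex.Gamma (1 / 2 + ((t / 2 : ℝ) : ℂ) * I)) := by
    unfold Gx
    have e2 : (1 / 2 + (1 / 2 + t * I) : ℂ) = 1 + t * I := by ring
    rw [e2, Complex.Gammaℝ_def]
    have e3 : (1 + t * I : ℂ) / 2 = 1 / 2 + ((t / 2 : ℝ) : ℂ) * I := by push_cast; ring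
    rw [e3]
    ring
  have e4 : ‖(Real.pi : ℂ) ^ (-(1 + t * I) / 2 : ℂ)‖ = Real.pi ^ (-(1 / 2) : ℝ) := by
    rw [Complex.norm_cpow_eq_rpow_re_of_pos Real.pi_pos]
    congr 1
    simp only [div_ofNat_re, neg_re, add_re, one_re, re_ofReal_mul, I_re, mul_zero, add_zero]
    ring
  have e5 : (Real.pi ^ (-(1 / 2) : ℝ)) ^ 2 = Real.pi⁻¹ := by
    rw [← Real.rpow_natCast, ← Real.rpow_mul Real.pi_pos.le]
    norm_num
    exact Real.rpow_neg_one _
  have e6 : ‖(1 + t * I : ℂ)‖ ^ 2 = 1 + t ^ 2 := by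
    rw [Complex.sq_norm, normSq_apply]
    simp only [add_re, one_re, re_ofReal_mul, I_re, mul_zero, add_zero, add_im, one_im,
      im_ofReal_mul, I_im, mul_one, zero_add]
    ring
  have e7 : ‖(4 * t * I : ℂ)‖ = 4 * t := by
    rw [norm_mul, norm_mul, norm_I, Complex.norm_real, Real.norm_of_nonneg ht.le]
    norm_num
  rw [e1, norm_mul (4 * t * I * (1 + t * I)), norm_mul (4 * t * I : ℂ),
    norm_mul ((Real.pi : ℂ) ^ (-(1 + t * I) / 2 : ℂ)), e4, mul_pow, mul_pow, mul_pow, e5, e6, e7,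
    gamma_half]
  have hc : 0 < Real.cosh (Real.pi * (t / 2)) := Real.cosh_pos _
  have hc2 : Real.pi * t / 2 = Real.pi * (t / 2) := by ring
  rw [hc2]
  have hpi := Real.pi_pos.ne'
  field_simp
  ring

lemma cosh_ratio {a b : ℝ} (ha : 0 ≤ a) :
    Real.cosh a ≤ 2 * Real.exp (a - b) * Real.cosh b := by
  have h1 : Real.cosh a ≤ Real.exp a := by
    rw [Real.cosh_eq]
    have : Real.exp (-a) ≤ Real.exp a := Real.exp_le_exp.2 (by linarith)
    linarith
  have h2 : Real.exp b / 2 ≤ Real.cosh b := by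
    rw [Real.cosh_eq]
    have := Real.exp_pos (-b)
    linarith
  calc Real.cosh a ≤ Real.exp a := h1
    _ = 2 * Real.exp (a - b) * (Real.exp b / 2) := by
      rw [show a = (a - b) + b by ring, Real.exp_add]; ring_nf
    _ ≤ _ := by gcongr

/-- vertical comparison on the line `Re w = 1/2` -/
lemma Gx_vert_half {t v : ℝ} (ht : 0 < t) (hv : |v| ≤ t / 4) :
    ‖Gx (1 / 2 + ((t + v : ℝ) : ℂ) * I)‖ ≤
      3 * Real.exp (-(Real.pi / 4 * v)) * ‖Gx (1 / 2 + t * I)‖ := by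
  obtain ⟨hv1, hv2⟩ := abs_le.1 hv
  have htv : 0 < t + v := by linarith
  refine le_of_sq_le_sq ?_ (by positivity)
  rw [mul_pow, mul_pow, Gx_half htv, Gx_half ht, ← Real.exp_nat_mul]
  have hc1 : 0 < Real.cosh (Real.pi * (t + v) / 2) := Real.cosh_pos _
  have hc2 : 0 < Real.cosh (Real.pi * t / 2) := Real.cosh_pos _
  have h1 := cosh_ratio (a := Real.pi * t / 2) (b := Real.pi * (t + v) / 2)
    (by have := Real.pi_pos; positivity)
  have e1 : Real.pi * t / 2 - Real.pi * (t + v) / 2 = ((2 : ℕ) : ℝ) * (-(Real.pi / 4 * v)) := by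
    push_cast; ring
  rw [e1] at h1
  set E := Real.exp (((2 : ℕ) : ℝ) * (-(Real.pi / 4 * v))) with hE
  have hE0 : 0 < E := Real.exp_pos _
  have h2 : (t + v) ^ 2 ≤ (5 / 4 * t) ^ 2 := by gcongr; linarith
  have h3 : 1 + (t + v) ^ 2 ≤ (5 / 4) ^ 2 * (1 + t ^ 2) := by nlinarith
  rw [div_le_iff₀ hc1]
  have h4 : 1 ≤ 2 * E * Real.cosh (Real.pi * (t + v) / 2) / Real.cosh (Real.pi * t / 2) := by
    rw [le_div_iff₀ hc2, one_mul]; exact h1
  calc 16 * (t + v) ^ 2 * (1 + (t + v) ^ 2)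
      ≤ 16 * (5 / 4 * t) ^ 2 * ((5 / 4) ^ 2 * (1 + t ^ 2)) := by gcongr
    _ = (5 / 4) ^ 4 * (16 * t ^ 2 * (1 + t ^ 2)) * 1 := by ring
    _ ≤ (5 / 4) ^ 4 * (16 * t ^ 2 * (1 + t ^ 2)) *
        (2 * E * Real.cosh (Real.pi * (t + v) / 2) / Real.cosh (Real.pi * t / 2)) := by gcongr
    _ ≤ 9 / 2 * (16 * t ^ 2 * (1 + t ^ 2)) *
        (2 * E * Real.cosh (Real.pi * (t + v) / 2) / Real.cosh (Real.pi * t / 2)) := by
        gcongr
        norm_num
    _ = _ := by ring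

/-- horizontal comparison -/
lemma Gx_hor {C1 : ℝ} (hC : LB C1) {w w' : ℂ} {X : ℝ} (h4 : 4 ≤ w.im) (him : w'.im = w.im)
    (hX : X ≤ w.im / 2) (h1 : |w.re| ≤ X) (h2 : |w'.re| ≤ X) :
    ‖Gx w'‖ ≤ ‖Gx w‖ * Real.exp (1 / 2 * Real.log w.im * (w'.re - w.re) +
      C1 * |w'.re - w.re|) := by
  have hC0 : 0 < C1 := by have := hC.1; linarith
  set S := |w'.re - w.re| with hS
  have hS0 : 0 ≤ S := abs_nonneg _
  have key : ∀ σ : ℝ, |σ| = 1 → σ * S = w'.re - w.re →
      ‖Gx w'‖ ≤ ‖Gx w‖ * Real.exp (1 / 2 * Real.log w.im * (w'.re - w.re) + C1 * S) := by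
    intro σ hσ hσS
    have hw' : w + (S : ℂ) * σ = w' := by
      apply Complex.ext
      · simp only [add_re, re_ofReal_mul, ofReal_re]
        linarith
      · simp only [add_im, im_ofReal_mul, ofReal_im, mul_zero, add_zero, him]
    have hpt : ∀ s ∈ Icc (0 : ℝ) S, Gx (w + s * σ) ≠ 0 ∧ DifferentiableAt ℂ Gx (w + s * σ) ∧
        ‖logDeriv Gx (w + s * σ) - ((1 / 2 * Real.log w.im : ℝ) : ℂ)‖ ≤ C1 := by
      intro s hs
      have him2 : (w + s * σ).im = w.im := by simp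
      have hre2 : (w + s * σ).re = w.re + s * σ := by simp
      have hre3 : |(w + s * σ).re| ≤ w.im / 2 := by
        rw [hre2]
        refine le_trans ?_ hX
        obtain ⟨a1, a2⟩ := abs_le.1 h1
        obtain ⟨b1, b2⟩ := abs_le.1 h2
        have hσ2 : σ = 1 ∨ σ = -1 := by
          rcases abs_choice σ with h | h
          · left; linarith
          · right; linarith
        rw [abs_le]
        obtain ⟨s1, s2⟩ := hs
        rcases hσ2 with rfl | rfl
        · constructor <;> linarith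
        · constructor <;> linarith
      have := hC.2 (w + s * σ) (by rw [him2]; exact h4) (by rw [him2]; exact hre3)
      rwa [him2] at this
    have h5 := hor (f := Gx) (w := w) (S := S) (P := 1 / 2 * Real.log w.im) (K := C1) hC0 hσ hS0
      (fun s hs => (hpt s hs).2.1) (fun s hs => (hpt s hs).1) (fun s hs => (hpt s hs).2.2)
    rw [hw'] at h5
    refine h5.trans (le_of_eq ?_)
    congr 2
    rw [← hσS]
    ring
  rcases abs_choice (w'.re - w.re) with h | h
  · exact key 1 (by norm_num) (by rw [one_mul, hS, h])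
  · exact key (-1) (by norm_num) (by rw [hS, h]; ring)

/-- vertical comparison -/
lemma Gx_vert {C1 : ℝ} (hC : LB C1) {X : ℝ} (hX : 1 / 2 ≤ X) : ∃ C : ℝ, 1 ≤ C ∧ ∀ w : ℂ, ∀ v : ℝ,
    8 * (X + 1) ≤ w.im → |w.re| ≤ X → |v| ≤ w.im / 4 →
    ‖Gx (w + v * I)‖ ≤ C * Real.exp (-(Real.pi / 4 * v)) * ‖Gx w‖ := by
  have hC0 : 0 < C1 := by have := hC.1; linarith
  refine ⟨3 * Real.exp ((2 * C1 + 1) * (2 * X)), ?_, ?_⟩
  · have : 1 ≤ Real.exp ((2 * C1 + 1) * (2 * X)) := Real.one_le_exp (by positivity)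
    linarith
  intro w v h1 h2 h3
  obtain ⟨v1, v2⟩ := abs_le.1 h3
  have ht : 0 < w.im := by linarith
  set t := w.im with ht_def
  have hre1 : ((1 / 2 : ℂ) + t * I).re = 1 / 2 := by simp
  have him1 : ((1 / 2 : ℂ) + t * I).im = t := by simp
  have hre2 : ((1 / 2 : ℂ) + ((t + v : ℝ) : ℂ) * I).re = 1 / 2 := by simp
  have him2 : ((1 / 2 : ℂ) + ((t + v : ℝ) : ℂ) * I).im = t + v := by simp
  have hre3 : (w + v * I).re = w.re := by simp
  have him3 : (w + v * I).im = t + v := by simp [ht_def]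
  have hhalf : |(1 / 2 : ℝ)| ≤ X := by rw [abs_of_pos (by norm_num)]; exact hX
  have a1 := Gx_hor hC (w := 1 / 2 + ((t + v : ℝ) : ℂ) * I) (w' := w + v * I) (X := X)
    (by rw [him2]; linarith) (by rw [him2, him3]) (by rw [him2]; linarith)
    (by rw [hre2]; exact hhalf) (by rw [hre3]; exact h2)
  rw [hre2, him2, hre3] at a1
  have a2 := Gx_vert_half ht h3
  have a3 := Gx_hor hC (w := w) (w' := 1 / 2 + t * I) (X := X)
    (by linarith) (by rw [him1]) (by linarith) h2 (by rw [hre1]; exact hhalf)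
  rw [hre1] at a3
  have hd : |w.re - 1 / 2| ≤ 2 * X := by
    obtain ⟨b1, b2⟩ := abs_le.1 h2
    rw [abs_le]; constructor <;> linarith
  have hd2 : |1 / 2 - w.re| ≤ 2 * X := by rw [abs_sub_comm]; exact hd
  have hlog : |Real.log (t + v) - Real.log t| ≤ 1 / 2 := by
    have htv : 0 < t + v := by linarith
    rw [abs_le]
    constructor
    · have h6 := Real.log_le_sub_one_of_pos (div_pos ht htv)
      rw [Real.log_div ht.ne' htv.ne'] at h6
      have : t / (t + v) ≤ 4 / 3 := by rw [div_le_iff₀ htv]; linarith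
      linarith
    · have h6 := Real.log_le_sub_one_of_pos (div_pos htv ht)
      rw [Real.log_div htv.ne' ht.ne'] at h6
      have : (t + v) / t ≤ 5 / 4 := by rw [div_le_iff₀ ht]; linarith
      linarith
  calc ‖Gx (w + v * I)‖ ≤ ‖Gx (1 / 2 + ((t + v : ℝ) : ℂ) * I)‖ *
        Real.exp (1 / 2 * Real.log (t + v) * (w.re - 1 / 2) + C1 * |w.re - 1 / 2|) := a1
    _ ≤ (3 * Real.exp (-(Real.pi / 4 * v)) * (‖Gx w‖ * Real.exp (1 / 2 * Real.log t *
        (1 / 2 - w.re) + C1 * |1 / 2 - w.re|))) *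
        Real.exp (1 / 2 * Real.log (t + v) * (w.re - 1 / 2) + C1 * |w.re - 1 / 2|) := by
        gcongr
        refine a2.trans ?_
        gcongr
    _ = 3 * Real.exp (-(Real.pi / 4 * v)) * ‖Gx w‖ * Real.exp ((1 / 2 * Real.log t *
        (1 / 2 - w.re) + C1 * |1 / 2 - w.re|) +
        (1 / 2 * Real.log (t + v) * (w.re - 1 / 2) + C1 * |w.re - 1 / 2|)) := by
        rw [Real.exp_add (1 / 2 * Real.log t *
        (1 / 2 - w.re) + C1 * |1 / 2 - w.re|)]
        ring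
    _ ≤ 3 * Real.exp (-(Real.pi / 4 * v)) * ‖Gx w‖ * Real.exp ((2 * C1 + 1) * (2 * X)) := by
        refine mul_le_mul_of_nonneg_left (Real.exp_le_exp.2 ?_) (by positivity)
        have b1 : 1 / 2 * Real.log t * (1 / 2 - w.re) + 1 / 2 * Real.log (t + v) * (w.re - 1 / 2) ≤
            1 / 2 * ((1 / 2) * (2 * X)) := by
          have : 1 / 2 * Real.log t * (1 / 2 - w.re) + 1 / 2 * Real.log (t + v) * (w.re - 1 / 2) =
            1 / 2 * ((Real.log (t + v) - Real.log t) * (w.re - 1 / 2)) := by ring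
          rw [this]
          refine mul_le_mul_of_nonneg_left ?_ (by norm_num)
          refine (le_abs_self _).trans ?_
          rw [abs_mul]
          exact mul_le_mul hlog hd (abs_nonneg _) (by norm_num)
        have b2 : C1 * |1 / 2 - w.re| ≤ C1 * (2 * X) := mul_le_mul_of_nonneg_left hd2 hC0.le
        have b3 : C1 * |w.re - 1 / 2| ≤ C1 * (2 * X) := mul_le_mul_of_nonneg_left hd hC0.le
        nlinarith
    _ = _ := by ring

/-- comparison with nearby points -/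
lemma Gx_near {C1 : ℝ} (hC : LB C1) {X : ℝ} (hX : 1 / 2 ≤ X) : ∃ C : ℝ, 1 ≤ C ∧ ∀ w z : ℂ,
    8 * (X + 2) ≤ w.im → |w.re| ≤ X → ‖z - w‖ ≤ 1 →
    ‖Gx z‖ ≤ ‖Gx w‖ * (C * Real.exp (1 / 2 * Real.log w.im)) := by
  obtain ⟨C, hC1, hv⟩ := Gx_vert hC (X := X + 1) (by linarith)
  have hC0 : 0 < C1 := by have := hC.1; linarith
  refine ⟨C * Real.exp 1 * Real.exp C1, ?_, ?_⟩
  · have h1 : 1 ≤ Real.exp 1 := Real.one_le_exp (by norm_num)
    have h2 : 1 ≤ Real.exp C1 := Real.one_le_exp hC0.le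
    nlinarith [mul_le_mul hC1 h1 (by norm_num) (by linarith)]
  intro w z h1 h2 h3
  have hre := (Complex.abs_re_le_norm (z - w)).trans h3
  have him := (Complex.abs_im_le_norm (z - w)).trans h3
  rw [sub_re] at hre
  rw [sub_im] at him
  obtain ⟨r1, r2⟩ := abs_le.1 hre
  obtain ⟨i1, i2⟩ := abs_le.1 him
  obtain ⟨a1, a2⟩ := abs_le.1 h2
  set w2 : ℂ := ⟨z.re, w.im⟩ with hw2
  have b1 := Gx_hor hC (w := w) (w' := w2) (X := X + 1) (by linarith) rfl (by linarith)
    (by linarith) (by rw [abs_le]; constructor <;> simp [hw2] <;> linarith)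
  have b2 := hv w2 (z.im - w.im) (by simp [hw2]; linarith)
    (by rw [abs_le]; constructor <;> simp [hw2] <;> linarith) (by
      rw [abs_le]; constructor <;> simp [hw2] <;> linarith)
  have e1 : w2 + ((z.im - w.im : ℝ) : ℂ) * I = z := by
    apply Complex.ext <;> simp [hw2]
  rw [e1] at b2
  have hlog : 0 ≤ Real.log w.im := Real.log_nonneg (by linarith)
  have hpi := Real.pi_lt_d2
  have hpi0 := Real.pi_pos
  calc ‖Gx z‖ ≤ C * Real.exp (-(Real.pi / 4 * (z.im - w.im))) * ‖Gx w2‖ := b2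
    _ ≤ C * Real.exp 1 * (‖Gx w‖ * Real.exp (1 / 2 * Real.log w.im * 1 + C1 * 1)) := by
        gcongr
        · nlinarith
        · refine b1.trans ?_
          gcongr
    _ = _ := by rw [mul_one, mul_one, Real.exp_add]; ring

end Pool.Agent.Helper75.HD
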