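import Pool.Agent.Helper75.HD.Loc

set_option autoImplicit false
set_option maxHeartbeats 1000000

open Complex Filter Topology Metric Set Polynomial
open scoped ENNReal

namespace Pool.Agent.Helper75.HD

open Pool.Agent.Helper75.Jen Pool.Agent.Helper75.Xi
open Pool.Agent.H21.Xi (cnt cnt_mono zeros_upper)

/-- growth in a disc of fixed size, compared with the centre -/
lemma jr {C1 x0 : ℝ} (hC : LB C1) (h0 : 0 ≤ x0) {g : ℂ → ℂ} (h : Cl x0 g) :
    ∃ A t1 : ℝ, 0 ≤ A ∧ 8 ≤ t1 ∧ ∀ t : ℝ, t1 ≤ t → g ⟨x0, t⟩ ≠ 0 ∧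
      ∀ z : ℂ, ‖z - ⟨x0, t⟩‖ ≤ 3 * (x0 + 2) →
      ‖g z‖ ≤ ‖g ⟨x0, t⟩‖ * Real.exp (A * Real.log t) := by
  have hC1 := hC.1
  set X : ℝ := 4 * x0 + 7 with hX
  obtain ⟨A0, ta, hA0, hup⟩ := h.up X
  obtain ⟨C3, hC3, hvert⟩ := Gx_vert hC (X := X) (by linarith)
  obtain ⟨tm, hmi⟩ := h.mi X 1 one_pos
  obtain ⟨K, ρ, hK, hρ, hri⟩ := h.ri
  set R : ℝ := 3 * (x0 + 2) with hR
  refine ⟨2 * A0 + (C3 + R) + (1 / 2 + C1) * R + 1,
    max (max (ta + R) tm) (max (max ρ (Real.exp 1)) (8 * (X + 1) + 4 * R)), by positivity, ?_, ?_⟩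
  · refine le_trans ?_ ((le_max_right _ _).trans' (le_max_right _ _))
    linarith
  intro t ht
  have i1 : ta + R ≤ t := (le_max_left _ _).trans ((le_max_left _ _).trans ht)
  have i2 : tm ≤ t := (le_max_right _ _).trans ((le_max_left _ _).trans ht)
  have i3 : ρ ≤ t := (le_max_left _ _).trans ((le_max_left _ _).trans ((le_max_right _ _).trans ht))
  have i4 : Real.exp 1 ≤ t :=
    (le_max_right _ _).trans ((le_max_left _ _).trans ((le_max_right _ _).trans ht))
  have i5 : 8 * (X + 1) + 4 * R ≤ t := (le_max_right _ _).trans ((le_max_right _ _).trans ht)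
  have hl1 := log_ge_one i4
  set l := Real.log t with hl
  set c : ℂ := ⟨x0, t⟩ with hc
  have hcre : c.re = x0 := rfl
  have hcim : c.im = t := rfl
  have hcn : t ≤ ‖c‖ := by
    have := (le_abs_self _).trans (Complex.abs_im_le_norm c)
    rwa [hcim] at this
  refine ⟨(hri c (by rw [hcre]) (by linarith)).1, ?_⟩
  intro z hz
  have a1 := (Complex.abs_re_le_norm (z - c)).trans hz
  have a2 := (Complex.abs_im_le_norm (z - c)).trans hz
  rw [sub_re, hcre] at a1
  rw [sub_im, hcim] at a2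
  obtain ⟨b1, b2⟩ := abs_le.1 a1
  obtain ⟨b3, b4⟩ := abs_le.1 a2
  have hzre : |z.re| ≤ X := by rw [abs_le]; constructor <;> linarith
  have g1 := hup z hzre (by linarith)
  have g2 : Real.log z.im ≤ 2 * l := by
    have : z.im ≤ t ^ 2 := by nlinarith
    calc Real.log z.im ≤ Real.log (t ^ 2) := Real.log_le_log (by linarith) this
      _ = 2 * l := by rw [Real.log_pow]; push_cast; rfl
  set z' : ℂ := ⟨z.re, t⟩ with hz'
  have g3 := hvert z' (z.im - t) (by show 8 * (X + 1) ≤ t; linarith) (by exact hzre)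
    (by show |z.im - t| ≤ t / 4; linarith)
  have e1 : z' + ((z.im - t : ℝ) : ℂ) * I = z := by
    apply Complex.ext <;> simp [hz']
  rw [e1] at g3
  have g4 := Gx_hor hC (w := c) (w' := z') (X := X) (by rw [hcim]; linarith) rfl
    (by rw [hcim]; linarith) (by rw [hcre, abs_of_nonneg h0]; linarith) hzre
  rw [hcim, hcre] at g4
  have hz're : z'.re = z.re := rfl
  rw [hz're] at g4
  have g5 := (hmi c (by rw [hcre]) (by rw [hcre]; linarith) (by rw [hcim]; exact i2)).1
  rw [hcim] at g5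
  have hpi := Real.pi_lt_d2
  have hpi0 := Real.pi_pos
  have h5 : -(Real.pi / 4 * (z.im - t)) ≤ R := by nlinarith
  have h6 : C3 * Real.exp (-(Real.pi / 4 * (z.im - t))) ≤ Real.exp ((C3 + R) * l) := by
    calc C3 * Real.exp (-(Real.pi / 4 * (z.im - t))) ≤ Real.exp (C3 * l) * Real.exp (R * l) := by
          refine mul_le_mul (const_le (by linarith) i4) (Real.exp_le_exp.2 ?_) (Real.exp_pos _).le
            (Real.exp_pos _).le
          nlinarith
      _ = _ := by rw [← Real.exp_add]; ring_nf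
  have h7 : ‖Gx z'‖ ≤ ‖Gx c‖ * Real.exp ((1 / 2 + C1) * R * l) := by
    refine g4.trans (mul_le_mul_of_nonneg_left (Real.exp_le_exp.2 ?_) (norm_nonneg _))
    have k1 : 1 / 2 * l * (z.re - x0) ≤ 1 / 2 * l * R := by gcongr
    have k2 : C1 * |z.re - x0| ≤ C1 * R * l := by
      calc C1 * |z.re - x0| ≤ C1 * R := by gcongr
        _ ≤ C1 * R * l := le_mul_of_one_le_right (by positivity) hl1
    nlinarith
  have h8 : ‖Gx c‖ ≤ ‖g c‖ * Real.exp (1 * l) := by
    calc ‖Gx c‖ = ‖Gx c‖ * Real.exp (-(1 * l)) * Real.exp (1 * l) := by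
          rw [mul_assoc, ← Real.exp_add]; simp
      _ ≤ _ := mul_le_mul_of_nonneg_right g5 (Real.exp_pos _).le
  calc ‖g z‖ ≤ ‖Gx z‖ * Real.exp (A0 * Real.log z.im) := g1
    _ ≤ (Real.exp ((C3 + R) * l) * ((‖g c‖ * Real.exp (1 * l)) * Real.exp ((1 / 2 + C1) * R * l))) *
        Real.exp (A0 * (2 * l)) := by
        refine mul_le_mul ?_ (Real.exp_le_exp.2 (mul_le_mul_of_nonneg_left g2 hA0))
          (Real.exp_pos _).le (by positivity)
        refine g3.trans (mul_le_mul h6 ?_ (norm_nonneg _) (Real.exp_pos _).le)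
        exact h7.trans (mul_le_mul_of_nonneg_right h8 (Real.exp_pos _).le)
    _ = ‖g c‖ * (Real.exp ((C3 + R) * l) * Real.exp (1 * l) * Real.exp ((1 / 2 + C1) * R * l) *
        Real.exp (A0 * (2 * l))) := by ring
    _ = _ := by
        rw [← Real.exp_add, ← Real.exp_add, ← Real.exp_add]
        congr 2
        ring

/-- the number of zeros in a box of height 2, in terms of a reflected function -/
lemma box {h : ℂ → ℂ} (hh : Differentiable ℂ h) {c : ℂ} {r B : ℝ} (hr : 0 < r)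
    (hc : h c ≠ 0)
    (hb : ∀ z : ℂ, ‖z - c‖ ≤ 3 * r → ‖h z‖ ≤ ‖h c‖ * Real.exp B) :
    cnt h (closedBall c r) ≤ ENNReal.ofReal (2 * B + 1) := by
  have hn : 0 < ‖h c‖ := norm_pos_iff.2 hc
  have ha : ((‖h c‖⁻¹ : ℝ) : ℂ) ≠ 0 := by
    exact_mod_cast (inv_pos.2 hn).ne'
  rw [← cnt_const_mul hh ha]
  refine zeros_upper _ (hh.const_mul _) c r B hr ?_ ?_
  · simp only [norm_mul, Complex.norm_real, norm_inv, norm_norm]
    rw [inv_mul_cancel₀ hn.ne']
    norm_num
  · intro z hz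
    rw [mem_closedBall, dist_eq_norm] at hz
    simp only [norm_mul, Complex.norm_real, norm_inv, norm_norm]
    rw [inv_mul_le_iff₀ hn]
    exact hb z hz

/-- zeros in a window -/
theorem win {Q : ℂ[X]} (h : Adm Q) : ∃ A : ℝ, 0 < A ∧ ∀ t : ℝ,
    cnt (opD Q fx) {w : ℂ | 0 ≤ w.re ∧ |w.im - t| ≤ 1} ≤ ENNReal.ofReal (A * Real.log (|t| + 2)) := by
  obtain ⟨C1, hC'⟩ := logDeriv_Gx
  have hC : LB C1 := hC'
  obtain ⟨x1, hg1⟩ := h.good
  obtain ⟨x2, hg2⟩ := h.conj.good
  have two1 := hg1.two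
  have two2 := hg2.two
  obtain ⟨A1, T1, hA1, hT1, hj1⟩ := jr hC (by linarith) hg1.cl
  obtain ⟨A2, T2, hA2, hT2, hj2⟩ := jr hC (by linarith) hg2.cl
  obtain ⟨K1, ρ1, _, hρ1, hr1⟩ := hg1.cl.ri
  obtain ⟨K2, ρ2, _, hρ2, hr2⟩ := hg2.cl.ri
  have hd := opD_diff Q fx_diff
  set T0 : ℝ := max (max T1 T2) (max ρ1 ρ2) + 1 with hT0
  have u1 : T1 + 1 ≤ T0 := by
    have : T1 ≤ max (max T1 T2) (max ρ1 ρ2) := (le_max_left _ _).trans (le_max_left _ _)
    linarith
  have u2 : T2 + 1 ≤ T0 := by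
    have : T2 ≤ max (max T1 T2) (max ρ1 ρ2) := (le_max_right _ _).trans (le_max_left _ _)
    linarith
  have u3 : ρ1 + 1 ≤ T0 := by
    have : ρ1 ≤ max (max T1 T2) (max ρ1 ρ2) := (le_max_left _ _).trans (le_max_right _ _)
    linarith
  have u4 : ρ2 + 1 ≤ T0 := by
    have : ρ2 ≤ max (max T1 T2) (max ρ1 ρ2) := (le_max_right _ _).trans (le_max_right _ _)
    linarith
  -- low heights
  have hfin := fin_low h (T0 + 1)
  obtain ⟨n0, hn0⟩ : ∃ n0 : ℕ, cnt (opD Q fx) {w : ℂ | opD Q fx w = 0 ∧ |w.im| ≤ T0 + 1} = n0 :=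
    ⟨_, Pool.Agent.H21.Xi.cnt_eq_sum _ hd (exists_ne h) _ hfin.toFinset (by
      intro z
      rw [Set.Finite.mem_toFinset]
      exact ⟨fun h => ⟨h, h.1⟩, fun h => h.1⟩)⟩
  have hl2 : 0 < Real.log 2 := Real.log_pos (by norm_num)
  refine ⟨2 * A1 + 2 * A2 + 1 / Real.log 2 + n0 / Real.log 2 + 1, by positivity, ?_⟩
  intro t
  have hlog : Real.log 2 ≤ Real.log (|t| + 2) :=
    Real.log_le_log (by norm_num) (by linarith [abs_nonneg t])
  have hL0 : 0 < Real.log (|t| + 2) := by linarith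
  have hk : 1 ≤ 1 / Real.log 2 * Real.log (|t| + 2) := by
    rw [one_div, inv_mul_eq_div, le_div_iff₀ hl2, one_mul]; exact hlog
  rcases le_or_gt T0 |t| with hcase | hcase
  · have hfinal : ∀ A : ℝ, 0 ≤ A → A ≤ A1 + A2 → ∀ τ : ℝ, τ = |t| →
        2 * (A * Real.log τ) + 1 ≤ (2 * A1 + 2 * A2 + 1 / Real.log 2 + n0 / Real.log 2 + 1) *
          Real.log (|t| + 2) := by
      intro A hA hA' τ hτ
      have h1 : Real.log τ ≤ Real.log (|t| + 2) := by
        rw [hτ]
        exact Real.log_le_log (by linarith) (by linarith)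
      have h2 : 0 ≤ (n0 : ℝ) / Real.log 2 * Real.log (|t| + 2) := by positivity
      have h3 : A * Real.log τ ≤ (A1 + A2) * Real.log (|t| + 2) :=
        mul_le_mul hA' h1 (by rw [hτ]; exact Real.log_nonneg (by linarith)) (by linarith)
      nlinarith
    rcases le_total 0 t with ht0 | ht0
    · rw [abs_of_nonneg ht0] at hcase
      obtain ⟨j1, j2⟩ := hj1 t (by linarith)
      have h5 := box hd (c := ⟨x1, t⟩) (r := x1 + 2) (B := A1 * Real.log t) (by linarith) j1 j2
      refine (cnt_le_of_zeros hd (T := closedBall (⟨x1, t⟩ : ℂ) (x1 + 2)) ?_).trans (h5.trans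
        (ENNReal.ofReal_le_ofReal (hfinal A1 hA1 (by linarith) t (abs_of_nonneg ht0).symm)))
      rintro w ⟨w1, w2⟩ hw
      obtain ⟨m1, m2⟩ := abs_le.1 w2
      have hwre : w.re ≤ x1 := by
        by_contra hcon
        push Not at hcon
        have hwn : w.im ≤ ‖w‖ := (le_abs_self _).trans (Complex.abs_im_le_norm w)
        exact (hr1 w hcon.le (by linarith)).1 hw
      rw [mem_closedBall, dist_eq_norm]
      refine (Complex.norm_le_abs_re_add_abs_im _).trans ?_
      have e1 : |(w - ⟨x1, t⟩).re| ≤ x1 := by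
        rw [sub_re, abs_le]; constructor <;> simp <;> linarith
      have e2 : |(w - ⟨x1, t⟩).im| ≤ 1 := by
        rw [sub_im]; exact w2
      linarith
    · rw [abs_of_nonpos ht0] at hcase
      obtain ⟨j1, j2⟩ := hj2 (-t) (by linarith)
      have hcj : ∀ z, ‖opD Q fx z‖ = ‖opD (Q.map (starRingEnd ℂ)) fx (starRingEnd ℂ z)‖ := by
        intro z
        have := opD_conj Q (starRingEnd ℂ z)
        rw [Complex.conj_conj] at this
        rw [this]
        exact RCLike.norm_conj _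
      have hcc : starRingEnd ℂ (⟨x2, t⟩ : ℂ) = ⟨x2, -t⟩ := rfl
      have h5 := box hd (c := ⟨x2, t⟩) (r := x2 + 2) (B := A2 * Real.log (-t))
        (by linarith)
        (by
          rw [← norm_ne_zero_iff, hcj, hcc, norm_ne_zero_iff]; exact j1)
        (fun z hz => by
          rw [hcj z, hcj ⟨x2, t⟩, hcc]
          refine j2 _ ?_
          rw [← hcc, ← map_sub, RCLike.norm_conj]
          exact hz)
      refine (cnt_le_of_zeros hd (T := closedBall (⟨x2, t⟩ : ℂ) (x2 + 2)) ?_).trans (h5.trans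
        (ENNReal.ofReal_le_ofReal (hfinal A2 hA2 (by linarith) (-t) (abs_of_nonpos ht0).symm)))
      rintro w ⟨w1, w2⟩ hw
      obtain ⟨m1, m2⟩ := abs_le.1 w2
      have hwre : w.re ≤ x2 := by
        by_contra hcon
        push Not at hcon
        have hwn : -w.im ≤ ‖w‖ := (neg_le_abs _).trans (Complex.abs_im_le_norm w)
        have h6 := (hr2 (starRingEnd ℂ w) (by rw [conj_re]; exact hcon.le)
          (by rw [RCLike.norm_conj]; linarith)).1
        rw [← norm_ne_zero_iff, ← hcj, norm_ne_zero_iff] at h6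
        exact h6 hw
      rw [mem_closedBall, dist_eq_norm]
      refine (Complex.norm_le_abs_re_add_abs_im _).trans ?_
      have e1 : |(w - ⟨x2, t⟩).re| ≤ x2 := by
        rw [sub_re, abs_le]; constructor <;> simp <;> linarith
      have e2 : |(w - ⟨x2, t⟩).im| ≤ 1 := by
        rw [sub_im]; exact w2
      linarith
  · have h1 : cnt (opD Q fx) {w : ℂ | 0 ≤ w.re ∧ |w.im - t| ≤ 1} ≤ (n0 : ℝ≥0∞) := by
      rw [← hn0]
      refine cnt_le_of_zeros hd ?_
      rintro w ⟨w1, w2⟩ hw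
      refine ⟨hw, ?_⟩
      have : |w.im| ≤ |w.im - t| + |t| := by
        have e : w.im = (w.im - t) + t := by ring
        calc |w.im| = |(w.im - t) + t| := by rw [← e]
          _ ≤ _ := abs_add_le _ _
      linarith
    refine h1.trans ?_
    rw [← ENNReal.ofReal_natCast]
    refine ENNReal.ofReal_le_ofReal ?_
    have h2 : (n0 : ℝ) ≤ n0 / Real.log 2 * Real.log (|t| + 2) := by
      rw [div_mul_eq_mul_div, le_div_iff₀ hl2]
      exact mul_le_mul_of_nonneg_left hlog (Nat.cast_nonneg _)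
    have h3 : 0 ≤ (2 * A1 + 2 * A2 + 1 / Real.log 2 + 1) * Real.log (|t| + 2) := by positivity
    nlinarith

end Pool.Agent.Helper75.HD
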