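import Pool.Agent.Helper75.HD.Cnt

set_option autoImplicit false
set_option maxHeartbeats 1000000

open Complex Filter Topology Metric Set Polynomial
open scoped ENNReal

namespace Pool.Agent.Helper75.HD

open Pool.Agent.Helper75.Jen Pool.Agent.Helper75.Xi
open Pool.Agent.H21.Xi (cnt cnt_mono)

lemma cnt_cover {ι : Type} {f : ℂ → ℂ} (hf : Differentiable ℂ f) {S : Set ℂ} (I : Finset ι)
    (Si : ι → Set ℂ) (h : ∀ w ∈ S, f w = 0 → ∃ i ∈ I, w ∈ Si i) :
    cnt f S ≤ ∑ i ∈ I, cnt f (Si i) := by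
  refine (cnt_le_of_zeros hf (T := ⋃ i ∈ I, Si i) ?_).trans ?_
  · intro w hw h0
    obtain ⟨i, hi, hwi⟩ := h w hw h0
    simp only [Set.mem_iUnion]
    exact ⟨i, hi, hwi⟩
  · unfold cnt
    exact ENNReal.tsum_biUnion_le (fun z => ((analyticOrderAt f z : ℕ∞) : ℝ≥0∞)) _ _

lemma card_le_cnt {F : ℂ → ℂ} (hF : Differentiable ℂ F) (h0 : ∃ z, F z ≠ 0) {S : Set ℂ}
    (Z : Finset ℂ) (hZ : ∀ z, z ∈ Z ↔ z ∈ S ∧ F z = 0) : (Z.card : ℝ≥0∞) ≤ cnt F S := by
  rw [Pool.Agent.H21.Xi.cnt_eq_sum F hF h0 S Z hZ]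
  have h1 : Z.card ≤ ∑ ρ ∈ Z, analyticOrderNatAt F ρ := by
    rw [Finset.card_eq_sum_ones]
    refine Finset.sum_le_sum fun ρ hρ => ?_
    have h2 := (hZ ρ).1 hρ
    rw [Nat.one_le_iff_ne_zero]
    intro h3
    have h4 := Nat.cast_analyticOrderNatAt (Pool.Agent.H21.Xi.order_ne_top F hF h0 ρ)
    rw [h3] at h4
    have h5 : analyticOrderAt F ρ = 0 := by rw [← h4]; rfl
    rw [(hF.analyticAt ρ).analyticOrderAt_eq_zero] at h5
    exact h5 h2.2
  exact_mod_cast h1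

lemma exists_logpow_le (W : ℝ) (k : ℕ) : ∃ T : ℝ, 8 ≤ T ∧ ∀ t : ℝ, T ≤ t → W * Real.log t ^ k ≤ t := by
  have h1 : (fun t : ℝ => Real.log t ^ k) =o[atTop] fun t : ℝ => t := by
    have := Real.isLittleO_pow_log_id_atTop (n := k)
    exact this
  have h2 : (fun t : ℝ => W * Real.log t ^ k) =o[atTop] fun t : ℝ => t := h1.const_mul_left W
  have h3 := h2.bound (one_pos)
  obtain ⟨T, hT⟩ := Filter.eventually_atTop.1 h3
  refine ⟨max T 8, le_max_right _ _, ?_⟩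
  intro t ht
  have h4 := hT t ((le_max_left _ _).trans ht)
  have ht8 : 8 ≤ t := (le_max_right _ _).trans ht
  rw [one_mul, Real.norm_eq_abs, Real.norm_eq_abs, abs_of_nonneg (show (0 : ℝ) ≤ t by linarith)] at h4
  exact (le_abs_self _).trans h4

/-- transfer of zero counts -/
theorem transfer {F G : ℂ → ℂ} (hF : Differentiable ℂ F) (hG : Differentiable ℂ G)
    (hF0 : ∃ z, F z ≠ 0) (hG0 : ∃ z, G z ≠ 0)
    {A : ℝ} (hA : 0 < A) (hwin : ∀ t : ℝ, cnt G {w : ℂ | 0 ≤ w.re ∧ |w.im - t| ≤ 1} ≤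
      ENNReal.ofReal (A * Real.log (|t| + 2)))
    (hGf : ∀ T : ℝ, {w : ℂ | G w = 0 ∧ |w.im| ≤ T}.Finite)
    (hFf : ∀ T : ℝ, {w : ℂ | F w = 0 ∧ |w.im| ≤ T}.Finite)
    {W T0 ε : ℝ} (hε : 0 ≤ ε) {k : ℕ} (hW : 1 ≤ W) (hT0 : 8 ≤ T0)
    (h : ∀ η : ℝ, 0 ≤ η → ∀ w : ℂ, T0 ≤ |w.im| → η + ε < w.re → G w = 0 →
      ∃ z : ℂ, F z = 0 ∧ η < z.re ∧ |z.im - w.im| ≤ W * Real.log |w.im| ^ k) :
    ∃ C : ℝ, 0 < C ∧ ∀ η : ℝ, 0 ≤ η → ∀ T : ℝ, 2 ≤ T →
      cnt G {w : ℂ | η + ε < w.re ∧ |w.im| ≤ T} ≤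
        ENNReal.ofReal (C * Real.log T ^ (k + 1)) * (1 + cnt F {w : ℂ | η < w.re ∧ |w.im| ≤ 2 * T}) := by
  classical
  obtain ⟨T1, hT1, hT1'⟩ := exists_logpow_le W k
  set Ts := max T0 T1 with hTs
  have s0 : T0 ≤ Ts := le_max_left _ _
  have s1 : T1 ≤ Ts := le_max_right _ _
  obtain ⟨n0, hn0⟩ : ∃ n0 : ℕ, cnt G {w : ℂ | G w = 0 ∧ |w.im| ≤ Ts} = n0 :=
    ⟨_, Pool.Agent.H21.Xi.cnt_eq_sum _ hG hG0 _ (hGf Ts).toFinset (by
      intro z
      rw [Set.Finite.mem_toFinset]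
      exact ⟨fun h => ⟨h, h.1⟩, fun h => h.1⟩)⟩
  have hl2 : 0 < Real.log 2 := Real.log_pos (by norm_num)
  have hl2' : Real.log 2 ≤ 1 := by have := Real.log_two_lt_d9; linarith
  set C : ℝ := n0 / Real.log 2 ^ (k + 1) + (W + 2) * (2 * A) with hCdef
  have hC0 : 0 < C := by positivity
  refine ⟨C, hC0, ?_⟩
  intro η hη T hT
  have hLT : Real.log 2 ≤ Real.log T := Real.log_le_log (by norm_num) hT
  have hL0 : 0 < Real.log T := by linarith
  have hn0C : (n0 : ℝ) ≤ n0 / Real.log 2 ^ (k + 1) * Real.log T ^ (k + 1) := by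
    rw [div_mul_eq_mul_div, le_div_iff₀ (by positivity)]
    gcongr
  rcases le_or_gt T Ts with hcase | hcase
  · have h1 : cnt G {w : ℂ | η + ε < w.re ∧ |w.im| ≤ T} ≤ (n0 : ℝ≥0∞) := by
      rw [← hn0]
      refine cnt_le_of_zeros hG ?_
      rintro w ⟨w1, w2⟩ hw
      exact ⟨hw, w2.trans hcase⟩
    have h2 : (n0 : ℝ≥0∞) ≤ ENNReal.ofReal (C * Real.log T ^ (k + 1)) := by
      rw [← ENNReal.ofReal_natCast]
      refine ENNReal.ofReal_le_ofReal (hn0C.trans ?_)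
      refine mul_le_mul_of_nonneg_right ?_ (by positivity)
      rw [hCdef]
      have : 0 ≤ (W + 2) * (2 * A) := by positivity
      linarith
    calc _ ≤ ENNReal.ofReal (C * Real.log T ^ (k + 1)) * 1 := by rw [mul_one]; exact h1.trans h2
      _ ≤ _ := by gcongr; exact le_self_add
  · have hTT1 : T1 ≤ T := s1.trans hcase.le
    have hT8 : 8 ≤ T := hT1.trans hTT1
    have hL1 : 1 ≤ Real.log T := by
      rw [Real.le_log_iff_exp_le (by linarith)]
      have := Real.exp_one_lt_d9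
      linarith
    set L := Real.log T with hL
    have hWL := hT1' T hTT1
    have hWL0 : 0 ≤ W * L ^ k := by positivity
    set N : ℕ := ⌊W * L ^ k⌋₊ + 1 with hN
    have hNle : (N : ℝ) ≤ W * L ^ k + 1 := by
      rw [hN]
      push_cast
      have := Nat.floor_le hWL0
      linarith
    have hfin : {w : ℂ | F w = 0 ∧ η < w.re ∧ |w.im| ≤ 2 * T}.Finite :=
      (hFf (2 * T)).subset (fun w hw => ⟨hw.1, hw.2.2⟩)
    set Z := hfin.toFinset with hZ
    have hZm : ∀ z, z ∈ Z ↔ z ∈ {w : ℂ | η < w.re ∧ |w.im| ≤ 2 * T} ∧ F z = 0 := by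
      intro z
      rw [hZ, Set.Finite.mem_toFinset]
      exact ⟨fun h => ⟨h.2, h.1⟩, fun h => ⟨h.2, h.1⟩⟩
    have hcard := card_le_cnt hF hF0 Z hZm
    set ctr : ℂ × ℕ → ℝ := fun p => p.1.im - W * L ^ k + 2 * p.2 + 1 with hctr
    have hcov := cnt_cover hG (S := {w : ℂ | η + ε < w.re ∧ |w.im| ≤ T})
      (Finset.insertNone (Z ×ˢ Finset.range N))
      (fun i => Option.elim i {w : ℂ | G w = 0 ∧ |w.im| ≤ Ts}
        (fun p => {w : ℂ | 0 ≤ w.re ∧ |w.im - ctr p| ≤ 1})) (by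
      rintro w ⟨w1, w2⟩ hw
      rcases le_or_gt |w.im| Ts with hlow | hhigh
      · exact ⟨none, by simp, hw, hlow⟩
      · obtain ⟨z, z1, z2, z3⟩ := h η hη w (s0.trans hhigh.le) w1 hw
        have hlogw : Real.log |w.im| ^ k ≤ L ^ k := by
          have h1 : 0 ≤ Real.log |w.im| := Real.log_nonneg (by linarith)
          exact pow_le_pow_left₀ h1 (Real.log_le_log (by linarith) w2) k
        have z3' : |z.im - w.im| ≤ W * L ^ k := z3.trans (by gcongr)
        have hzim : |z.im| ≤ 2 * T := by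
          calc |z.im| = |(z.im - w.im) + w.im| := by congr 1; ring
            _ ≤ |z.im - w.im| + |w.im| := abs_add_le _ _
            _ ≤ _ := by linarith
        obtain ⟨y1, y2⟩ := abs_le.1 z3'
        set x : ℝ := w.im - z.im + W * L ^ k with hx
        have hx0 : 0 ≤ x := by linarith
        set j : ℕ := ⌊x / 2⌋₊ with hj
        have hj1 : (j : ℝ) ≤ x / 2 := Nat.floor_le (by positivity)
        have hj2 : x / 2 < j + 1 := Nat.lt_floor_add_one _
        refine ⟨some (z, j), ?_, ?_⟩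
        · rw [Finset.some_mem_insertNone, Finset.mem_product, Finset.mem_range]
          refine ⟨(hZm z).2 ⟨⟨z2, hzim⟩, z1⟩, ?_⟩
          show j < N
          rw [hN, Nat.lt_succ_iff]
          refine Nat.floor_mono ?_
          linarith
        · show 0 ≤ w.re ∧ |w.im - ctr (z, j)| ≤ 1
          refine ⟨by linarith, ?_⟩
          rw [hctr, abs_le]
          constructor <;> simp only <;> linarith)
    rw [Finset.sum_insertNone] at hcov
    have hterm : ∀ p ∈ Z ×ˢ Finset.range N, cnt G {w : ℂ | 0 ≤ w.re ∧ |w.im - ctr p| ≤ 1} ≤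
        ENNReal.ofReal (2 * A * L) := by
      intro p hp
      rw [Finset.mem_product, Finset.mem_range] at hp
      obtain ⟨hp1, hp2⟩ := hp
      have hpz := ((hZm p.1).1 hp1).1.2
      refine (hwin (ctr p)).trans (ENNReal.ofReal_le_ofReal ?_)
      have h1 : (p.2 : ℝ) + 1 ≤ N := by exact_mod_cast hp2
      have h2 : |ctr p| + 2 ≤ T ^ 2 := by
        obtain ⟨c1, c2⟩ := abs_le.1 hpz
        have h3 : |ctr p| ≤ 5 * T + 3 := by
          rw [hctr, abs_le]
          have : (0 : ℝ) ≤ p.2 := Nat.cast_nonneg _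
          constructor <;> simp only <;> linarith
        nlinarith
      have h3 : Real.log (|ctr p| + 2) ≤ 2 * L := by
        calc Real.log (|ctr p| + 2) ≤ Real.log (T ^ 2) :=
              Real.log_le_log (by linarith [abs_nonneg (ctr p)]) h2
          _ = 2 * L := by rw [Real.log_pow]; push_cast; rfl
      nlinarith
    have hsum : ∑ p ∈ Z ×ˢ Finset.range N, cnt G {w : ℂ | 0 ≤ w.re ∧ |w.im - ctr p| ≤ 1} ≤
        ENNReal.ofReal ((Z.card : ℝ) * N * (2 * A * L)) := by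
      refine (Finset.sum_le_sum hterm).trans ?_
      rw [Finset.sum_const, Finset.card_product, Finset.card_range, nsmul_eq_mul,
        ← ENNReal.ofReal_natCast, ← ENNReal.ofReal_mul (Nat.cast_nonneg _)]
      push_cast
      exact le_rfl
    have hb : cnt G {w : ℂ | η + ε < w.re ∧ |w.im| ≤ T} ≤
        ENNReal.ofReal ((n0 : ℝ) + (Z.card : ℝ) * N * (2 * A * L)) := by
      rw [ENNReal.ofReal_add (Nat.cast_nonneg _) (by positivity), ENNReal.ofReal_natCast]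
      refine hcov.trans (add_le_add (le_of_eq hn0) hsum)
    refine hb.trans ?_
    have hreal : (n0 : ℝ) + (Z.card : ℝ) * N * (2 * A * L) ≤ C * L ^ (k + 1) * (1 + Z.card) := by
      have hN2 : (N : ℝ) ≤ (W + 2) * L ^ k := by
        have h1 : 1 ≤ L ^ k := one_le_pow₀ hL1
        nlinarith
      have h2 : (Z.card : ℝ) * N * (2 * A * L) ≤ Z.card * ((W + 2) * L ^ k) * (2 * A * L) := by
        gcongr
      have h3 : (Z.card : ℝ) * ((W + 2) * L ^ k) * (2 * A * L) =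
          (W + 2) * (2 * A) * L ^ (k + 1) * Z.card := by rw [pow_succ]; ring
      have hZ0 : (0 : ℝ) ≤ Z.card := Nat.cast_nonneg _
      have h4 : 0 ≤ (n0 : ℝ) / Real.log 2 ^ (k + 1) * L ^ (k + 1) := by positivity
      have h5 : 0 ≤ (W + 2) * (2 * A) * L ^ (k + 1) := by positivity
      have h6 : 0 ≤ (n0 : ℝ) / Real.log 2 ^ (k + 1) * L ^ (k + 1) * Z.card := by positivity
      rw [hCdef]
      nlinarith
    refine (ENNReal.ofReal_le_ofReal hreal).trans ?_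
    rw [ENNReal.ofReal_mul (by positivity)]
    refine mul_le_mul_right ?_ _
    rw [ENNReal.ofReal_add zero_le_one (Nat.cast_nonneg _), ENNReal.ofReal_one,
      ENNReal.ofReal_natCast]
    exact add_le_add le_rfl hcard

/-- the two-sided comparison of zero counts -/
theorem density {Q : ℂ[X]} (h : Adm Q) {ε : ℝ} (hε : 0 < ε) (hε1 : ε ≤ 1) :
    ∃ C : ℝ, 0 < C ∧ ∀ η : ℝ, 0 ≤ η → ∀ T : ℝ, 2 ≤ T →
      cnt (opD Q fx) {w : ℂ | η + ε < w.re ∧ |w.im| ≤ T} ≤
        ENNReal.ofReal (C * Real.log T) * (1 + cnt fx {w : ℂ | η < w.re ∧ |w.im| ≤ 2 * T}) ∧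
      cnt fx {w : ℂ | η + ε < w.re ∧ |w.im| ≤ T} ≤
        ENNReal.ofReal (C * Real.log T ^ 2) * (1 + cnt (opD Q fx) {w : ℂ | η < w.re ∧ |w.im| ≤ 2 * T}) := by
  obtain ⟨D, T0, hD, hT0, hloc⟩ := loc h hε hε1
  obtain ⟨A1, hA1, hw1⟩ := win h
  obtain ⟨A2, hA2, hw2⟩ := win Adm.one
  have hf1 := fin_low h
  have hf2 := fin_low Adm.one
  have he2 := exists_ne Adm.one
  rw [opD_one] at hw2 he2
  simp only [opD_one] at hf2
  have hdQ := opD_diff Q fx_diff
  obtain ⟨C1, hC1, h1⟩ := transfer (F := fx) (G := opD Q fx) fx_diff hdQ he2 (exists_ne h) hA1 hw1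
    hf1 hf2 (W := D) (T0 := T0) (ε := ε) hε.le (k := 0) hD hT0 (by
      intro η hη w hw1 hw2 hw3
      by_contra hcon
      push Not at hcon
      refine (hloc w.im hw1 η hη).1 ?_ w (hw2.le.trans (le_abs_self _)) rfl hw3
      intro z hz1 hz2 hz3
      have h5 := hcon z hz3 hz1
      rw [pow_zero, mul_one] at h5
      linarith)
  obtain ⟨C2, hC2, h2⟩ := transfer (F := opD Q fx) (G := fx) hdQ fx_diff (exists_ne h) he2 hA2 hw2
    hf2 hf1 (W := D) (T0 := T0) (ε := ε) hε.le (k := 1) hD hT0 (by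
      intro η hη w hw1 hw2 hw3
      by_contra hcon
      push Not at hcon
      refine (hloc w.im hw1 η hη).2 ?_ w (hw2.le.trans (le_abs_self _)) rfl hw3
      intro z hz1 hz2 hz3
      have h5 := hcon z hz3 hz1
      rw [pow_one] at h5
      linarith)
  refine ⟨C1 + C2, by positivity, ?_⟩
  intro η hη T hT
  have hL0 : 0 ≤ Real.log T := Real.log_nonneg (by linarith)
  constructor
  · refine (h1 η hη T hT).trans ?_
    refine mul_le_mul_left (ENNReal.ofReal_le_ofReal ?_) _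
    rw [zero_add, pow_one]
    nlinarith
  · refine (h2 η hη T hT).trans ?_
    refine mul_le_mul_left (ENNReal.ofReal_le_ofReal ?_) _
    have : 0 ≤ Real.log T ^ 2 := sq_nonneg _
    norm_num
    nlinarith

end Pool.Agent.Helper75.HD
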