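import Pool.Agent.Helper75.HD.Back
import Pool.Agent.Helper75.Xi.Fin2

set_option autoImplicit false
set_option maxHeartbeats 1000000

open Complex Filter Topology Metric Set Polynomial

namespace Pool.Agent.Helper75.HD

open Pool.Agent.Helper75.Jen Pool.Agent.Helper75.Xi

/-- a polynomial in the differentiation operator -/
noncomputable def opD (Q : ℂ[X]) (f : ℂ → ℂ) (w : ℂ) : ℂ :=
  Q.sum fun k a => a * iteratedDeriv k f w

lemma opD_add (P Q : ℂ[X]) (f : ℂ → ℂ) : opD (P + Q) f = opD P f + opD Q f := by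
  funext w
  simp only [opD, Pi.add_apply]
  exact Polynomial.sum_add_index P Q _ (fun i => by simp) (fun i a b => by ring)

lemma opD_monomial (n : ℕ) (a : ℂ) (f : ℂ → ℂ) :
    opD (monomial n a) f = fun w => a * iteratedDeriv n f w := by
  funext w
  simp only [opD]
  exact Polynomial.sum_monomial_index _ _ (by simp)

lemma opD_C (a : ℂ) (f : ℂ → ℂ) : opD (C a) f = fun w => a * f w := by
  rw [← monomial_zero_left, opD_monomial]
  simp

lemma opD_diff (Q : ℂ[X]) {f : ℂ → ℂ} (hf : Differentiable ℂ f) : Differentiable ℂ (opD Q f) := by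
  induction Q using Polynomial.induction_on' with
  | add p q hp hq => rw [opD_add]; exact hp.add hq
  | monomial n a => rw [opD_monomial]; exact (iter_diff hf n).const_mul a

lemma st_add (α : ℂ) {f g : ℂ → ℂ} (hf : Differentiable ℂ f) (hg : Differentiable ℂ g) :
    st α (f + g) = st α f + st α g := by
  funext w
  simp only [st, Pi.add_apply]
  rw [deriv_add (hf w) (hg w)]
  ring

lemma opD_lin (α : ℂ) (Q : ℂ[X]) {f : ℂ → ℂ} (hf : Differentiable ℂ f) :
    opD ((X - C α) * Q) f = st α (opD Q f) := by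
  induction Q using Polynomial.induction_on' with
  | add p q hp hq =>
    rw [mul_add, opD_add, opD_add, hp, hq, st_add α (opD_diff p hf) (opD_diff q hf)]
  | monomial n a =>
    have e : (X - C α) * monomial n a = monomial (n + 1) a + monomial n (-(α * a)) := by
      rw [sub_mul, X_mul_monomial, C_mul_monomial, sub_eq_add_neg, map_neg]
    rw [e, opD_add, opD_monomial, opD_monomial, opD_monomial]
    funext w
    simp only [Pi.add_apply, st]
    rw [((iter_diff hf n) w).hasDerivAt.const_mul a |>.deriv, iteratedDeriv_succ]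
    ring

lemma fx_ne_right {w : ℂ} (h : 1 / 2 < w.re) : fx w ≠ 0 := by
  intro h0
  have h1 := fx_zero_re h0
  have h2 := le_abs_self w.re
  linarith

/-- the induction statement -/
structure Good (x0 : ℝ) (g : ℂ → ℂ) : Prop where
  two : 2 ≤ x0
  cl : Cl x0 g
  bw : ∀ ε : ℝ, 0 < ε → ε ≤ 1 → ∃ V t0 : ℝ, 0 < V ∧ 8 ≤ t0 ∧ ∀ t : ℝ, t0 ≤ t → ∀ η : ℝ, 0 ≤ η →
    (∀ w : ℂ, η < w.re → |w.im - t| ≤ V * Real.log t → g w ≠ 0) →
    ∀ w : ℂ, η + ε ≤ w.re → w.im = t → fx w ≠ 0
  fw : ∀ ε : ℝ, 0 < ε → ε ≤ 1 → ∃ Cc t0 : ℝ, 0 < Cc ∧ 8 ≤ t0 ∧ ∀ t : ℝ, t0 ≤ t → ∀ η : ℝ, 0 ≤ η →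
    η ≤ 1 / 2 → (∀ w : ℂ, η < w.re → |w.im - t| ≤ Cc → fx w ≠ 0) →
    ∀ w : ℂ, η + ε ≤ w.re → w.im = t → g w ≠ 0

lemma Cl.mono {x0 x1 : ℝ} {f : ℂ → ℂ} (h : Cl x0 f) (h01 : x0 ≤ x1) : Cl x1 f := by
  refine ⟨h.d, h.up, ?_, ?_⟩
  · obtain ⟨K, ρ, h1, h2, h3⟩ := h.ri
    exact ⟨K, ρ, h1, h2, fun w hw => h3 w (h01.trans hw)⟩
  · intro X ε hε
    obtain ⟨t1, h1⟩ := h.mi X ε hε
    exact ⟨t1, fun w hw => h1 w (h01.trans hw)⟩

lemma Cl.smul {x0 : ℝ} {f : ℂ → ℂ} (h : Cl x0 f) {c : ℂ} (hc : c ≠ 0) :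
    Cl x0 (fun w => c * f w) := by
  have hcn : 0 < ‖c‖ := norm_pos_iff.2 hc
  refine ⟨h.d.const_mul c, ?_, ?_, ?_⟩
  · intro X
    obtain ⟨A, t1, hA, h1⟩ := h.up X
    refine ⟨A + ‖c‖, max t1 (Real.exp 1), by positivity, ?_⟩
    intro w hre him
    have i1 := (le_max_left _ _).trans him
    have i2 := (le_max_right _ _).trans him
    have h2 := const_le hcn.le i2
    rw [norm_mul]
    calc ‖c‖ * ‖f w‖ ≤ Real.exp (‖c‖ * Real.log w.im) * (‖Gx w‖ * Real.exp (A * Real.log w.im)) := by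
          gcongr
          exact h1 w hre i1
      _ = ‖Gx w‖ * (Real.exp (A * Real.log w.im) * Real.exp (‖c‖ * Real.log w.im)) := by ring
      _ = _ := by rw [← Real.exp_add]; ring_nf
  · obtain ⟨K, ρ, h1, h2, h3⟩ := h.ri
    refine ⟨K, ρ, h1, h2, fun w hw1 hw2 => ?_⟩
    obtain ⟨g1, g2⟩ := h3 w hw1 hw2
    refine ⟨mul_ne_zero hc g1, ?_⟩
    have : logDeriv (fun w => c * f w) w = logDeriv f w := by
      rw [logDeriv_apply, logDeriv_apply, deriv_const_mul _ (h.d w)]
      field_simp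
    rw [this]
    exact g2
  · intro X ε hε
    obtain ⟨t1, h1⟩ := h.mi X (ε / 2) (by positivity)
    set D := ‖c‖ + ‖c‖⁻¹ with hD
    have hD0 : 0 < D := by positivity
    refine ⟨max t1 (Real.exp (D * (2 / ε))), ?_⟩
    intro w hw1 hw2 him
    have i1 := (le_max_left _ _).trans him
    have i2 := (le_max_right _ _).trans him
    have him0 : 0 < w.im := lt_of_lt_of_le (Real.exp_pos _) i2
    have h3 : D ≤ ε / 2 * Real.log w.im := by
      have h4 : D * (2 / ε) ≤ Real.log w.im := by rw [Real.le_log_iff_exp_le him0]; exact i2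
      have h5 := mul_le_mul_of_nonneg_left h4 (show 0 ≤ ε / 2 by positivity)
      have e : ε / 2 * (D * (2 / ε)) = D := by field_simp
      linarith
    have h4 : D ≤ Real.exp (ε / 2 * Real.log w.im) := by
      have := Real.add_one_le_exp (ε / 2 * Real.log w.im)
      linarith
    obtain ⟨m1, m2⟩ := h1 w hw1 hw2 i1
    have hc1 : ‖c‖ ≤ Real.exp (ε / 2 * Real.log w.im) := by
      refine le_trans ?_ h4
      have : 0 < ‖c‖⁻¹ := by positivity
      linarith
    have hc2 : Real.exp (-(ε / 2 * Real.log w.im)) ≤ ‖c‖ := by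
      rw [Real.exp_neg]
      have : ‖c‖⁻¹ ≤ Real.exp (ε / 2 * Real.log w.im) := by
        refine le_trans ?_ h4
        linarith
      have h5 := inv_anti₀ (by positivity) this
      rwa [inv_inv] at h5
    rw [norm_mul]
    constructor
    · calc ‖Gx w‖ * Real.exp (-(ε * Real.log w.im)) = Real.exp (-(ε / 2 * Real.log w.im)) *
            (‖Gx w‖ * Real.exp (-(ε / 2 * Real.log w.im))) := by
            rw [show -(ε * Real.log w.im) = -(ε / 2 * Real.log w.im) + -(ε / 2 * Real.log w.im) by ring,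
              Real.exp_add]
            ring
        _ ≤ ‖c‖ * ‖f w‖ := mul_le_mul hc2 m1 (by positivity) hcn.le
    · calc ‖c‖ * ‖f w‖ ≤ Real.exp (ε / 2 * Real.log w.im) *
            (‖Gx w‖ * Real.exp (ε / 2 * Real.log w.im)) := mul_le_mul hc1 m2 (norm_nonneg _)
              (Real.exp_pos _).le
        _ = _ := by
            rw [show ε * Real.log w.im = ε / 2 * Real.log w.im + ε / 2 * Real.log w.im by ring,
              Real.exp_add]
            ring

lemma good_base {C1 : ℝ} (hC : LB C1) {c : ℂ} (hc : c ≠ 0) : Good 2 (fun w => c * fx w) := by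
  refine ⟨le_rfl, ((base hC).mono (by norm_num)).smul hc, ?_, ?_⟩
  · intro ε hε _
    refine ⟨1, 8, one_pos, le_rfl, ?_⟩
    intro t ht η hη hz w hw1 hw2 h0
    refine hz w (by linarith) ?_ (by rw [h0, mul_zero])
    rw [hw2, sub_self, abs_zero]
    have : 0 ≤ Real.log t := Real.log_nonneg (by linarith)
    linarith
  · intro ε hε _
    refine ⟨1, 8, one_pos, le_rfl, ?_⟩
    intro t ht η hη _ hz w hw1 hw2 h0
    refine hz w (by linarith) ?_ ?_
    · rw [hw2, sub_self, abs_zero]; norm_num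
    · rcases mul_eq_zero.1 h0 with h | h
      · exact absurd h hc
      · exact h

/-- `V log t ≤ t / 2` for large `t` -/
lemma exists_log_le (V : ℝ) (hV : 0 ≤ V) : ∃ t0 : ℝ, 1 ≤ t0 ∧ ∀ t : ℝ, t0 ≤ t → V * Real.log t ≤ t / 2 := by
  refine ⟨Real.exp (2 * (2 * V) / (1 : ℝ) ^ 2), Real.one_le_exp (by positivity), ?_⟩
  intro t ht
  have ht0 : 0 < t := lt_of_lt_of_le (Real.exp_pos _) ht
  have h1 : 2 * (2 * V) / (1 : ℝ) ^ 2 ≤ Real.log t := by
    rw [Real.le_log_iff_exp_le ht0]; exact ht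
  have h2 := lin_le_exp (c := 2 * V) (δ := 1) (by linarith) one_pos h1
  rw [one_mul, Real.exp_log ht0] at h2
  linarith

lemma good_step {C1 : ℝ} (hC : LB C1) {x0 : ℝ} {g : ℂ → ℂ} (h : Good x0 g) {α : ℂ}
    (hα : α.im ≠ Real.pi / 4) : Good (x0 + 1) (st α g) := by
  have h2 := h.two
  refine ⟨by linarith, step hC (by linarith) h.cl α, ?_, ?_⟩
  · intro ε hε hε1
    obtain ⟨V1, t1, hV1, ht1, hb1⟩ := h.bw (ε / 2) (by positivity) (by linarith)
    obtain ⟨V2, t2, hV2, ht2, hb2⟩ := back hC (by linarith) h.cl hα (ε := ε / 2)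
      (by positivity) (by linarith)
    obtain ⟨t3, ht3, hlog⟩ := exists_log_le V1 hV1.le
    refine ⟨V1 + 2 * V2, max (max t1 t3) (2 * t2), by linarith, ht1.trans
      ((le_max_left _ _).trans (le_max_left _ _)), ?_⟩
    intro t ht η hη hz
    have i1 : t1 ≤ t := (le_max_left _ _).trans ((le_max_left _ _).trans ht)
    have i3 : t3 ≤ t := (le_max_right _ _).trans ((le_max_left _ _).trans ht)
    have i2 : 2 * t2 ≤ t := (le_max_right _ _).trans ht
    rcases le_total (1 / 2) η with hcase | hcase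
    · intro w hw1 hw2
      exact fx_ne_right (by linarith)
    refine fun w hw1 hw2 => hb1 t i1 (η + ε / 2) (by positivity) ?_ w (by linarith) hw2
    intro y hy1 hy2
    have hl3 := hlog t i3
    obtain ⟨y1, y2⟩ := abs_le.1 hy2
    refine hb2 y.im (by linarith) η hη (by linarith) ?_ y (by linarith) rfl
    intro u hu1 hu2
    refine hz u hu1 ?_
    have hly : Real.log y.im ≤ 2 * Real.log t := by
      have : y.im ≤ t ^ 2 := by nlinarith
      calc Real.log y.im ≤ Real.log (t ^ 2) := Real.log_le_log (by linarith) this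
        _ = 2 * Real.log t := by rw [Real.log_pow]; push_cast; ring
    have h5 : |u.im - t| ≤ |u.im - y.im| + |y.im - t| := by
      have : u.im - t = (u.im - y.im) + (y.im - t) := by ring
      rw [this]
      exact abs_add_le _ _
    nlinarith
  · intro ε hε hε1
    obtain ⟨D1, t1, hD1, ht1, hb1⟩ := h.fw (ε / 2) (by positivity) (by linarith)
    obtain ⟨t2, ht2, hb2⟩ := fwd hC (by linarith) h.cl α (ε := ε / 2)
      (by positivity) (by linarith)
    refine ⟨D1 + (x0 + 2), max (t1 + (x0 + 2)) t2, by linarith, ht2.trans (le_max_right _ _), ?_⟩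
    intro t ht η hη hη2 hz
    have i1 : t1 + (x0 + 2) ≤ t := (le_max_left _ _).trans ht
    have i2 : t2 ≤ t := (le_max_right _ _).trans ht
    refine fun w hw1 hw2 => hb2 t i2 (η + ε / 2) (by positivity) (by linarith) ?_ w (by linarith) hw2
    intro y hy1 hy2
    obtain ⟨y1, y2⟩ := abs_le.1 hy2
    refine hb1 y.im (by linarith) η hη hη2 ?_ y hy1.le rfl
    intro u hu1 hu2
    refine hz u hu1 ?_
    have h5 : |u.im - t| ≤ |u.im - y.im| + |y.im - t| := by
      have : u.im - t = (u.im - y.im) + (y.im - t) := by ring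
      rw [this]
      exact abs_add_le _ _
    linarith

theorem good_all (n : ℕ) : ∀ Q : ℂ[X], Q ≠ 0 → Q.natDegree = n →
    (∀ α : ℂ, Q.IsRoot α → α.im ≠ Real.pi / 4) → ∃ x0 : ℝ, Good x0 (opD Q fx) := by
  obtain ⟨C1, hC⟩ := logDeriv_Gx
  induction n with
  | zero =>
    intro Q hQ hdeg _
    obtain ⟨c, rfl⟩ := Polynomial.natDegree_eq_zero.1 hdeg
    rw [opD_C]
    refine ⟨2, good_base (C1 := C1) hC ?_⟩
    rintro rfl
    exact hQ (map_zero C)
  | succ n ih =>
    intro Q hQ hdeg hroots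
    have hdeg' : Q.degree ≠ 0 := by
      rw [Polynomial.degree_eq_natDegree hQ, hdeg]
      exact_mod_cast Nat.succ_ne_zero n
    obtain ⟨α, hα⟩ := IsAlgClosed.exists_root Q hdeg'
    obtain ⟨R, hR⟩ := Polynomial.dvd_iff_isRoot.2 hα
    have hR0 : R ≠ 0 := by
      rintro rfl
      rw [mul_zero] at hR
      exact hQ hR
    have hRdeg : R.natDegree = n := by
      have h1 := congrArg Polynomial.natDegree hR
      rw [Polynomial.natDegree_mul (X_sub_C_ne_zero α) hR0, natDegree_X_sub_C, hdeg] at h1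
      omega
    obtain ⟨x0, hx⟩ := ih R hR0 hRdeg (fun β hβ => hroots β (by
      rw [hR]
      exact Polynomial.IsRoot.def.2 (by rw [eval_mul, Polynomial.IsRoot.def.1 hβ, mul_zero])))
    refine ⟨x0 + 1, ?_⟩
    rw [hR, opD_lin α R fx_diff]
    exact good_step (C1 := C1) hC hx (hroots α hα)

end Pool.Agent.Helper75.HD
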