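import Pool.Agent.Helper75.HD.Ind

set_option autoImplicit false
set_option maxHeartbeats 1000000

open Complex Filter Topology Metric Set Polynomial

namespace Pool.Agent.Helper75.HD

open Pool.Agent.Helper75.Jen Pool.Agent.Helper75.Xi

/-- the admissible operators -/
def Adm (Q : ℂ[X]) : Prop := Q ≠ 0 ∧ ∀ α : ℂ, Q.IsRoot α → |α.im| ≠ Real.pi / 4

lemma opD_conj (Q : ℂ[X]) (w : ℂ) : opD Q fx (starRingEnd ℂ w) =
    starRingEnd ℂ (opD (Q.map (starRingEnd ℂ)) fx w) := by
  induction Q using Polynomial.induction_on' with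
  | add p q hp hq =>
    rw [Polynomial.map_add, opD_add, opD_add, Pi.add_apply, Pi.add_apply, hp, hq, map_add]
  | monomial n a =>
    rw [Polynomial.map_monomial, opD_monomial, opD_monomial]
    simp only [map_mul, Complex.conj_conj]
    rw [(iter_conj fx_diff fx_conj n).2]

lemma iter_neg (n : ℕ) (w : ℂ) : iteratedDeriv n fx (-w) = (-1) ^ n * iteratedDeriv n fx w := by
  have h1 : (fun z => fx (-z)) = fx := funext fx_even
  have h2 := iteratedDeriv_comp_neg n fx w
  rw [h1] at h2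
  rw [h2, smul_eq_mul, ← mul_assoc, ← mul_pow]
  norm_num

lemma opD_neg (Q : ℂ[X]) (w : ℂ) : opD Q fx (-w) = opD (Q.comp (-X)) fx w := by
  induction Q using Polynomial.induction_on' with
  | add p q hp hq =>
    rw [add_comp, opD_add, opD_add, Pi.add_apply, Pi.add_apply, hp, hq]
  | monomial n a =>
    have e : (monomial n a : ℂ[X]).comp (-X) = monomial n (a * (-1) ^ n) := by
      rw [monomial_comp, neg_pow, ← C_mul_X_pow_eq_monomial, map_mul, map_pow, map_neg, map_one]
      ring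
    rw [e, opD_monomial, opD_monomial]
    simp only [iter_neg]
    ring

lemma Adm.conj {Q : ℂ[X]} (h : Adm Q) : Adm (Q.map (starRingEnd ℂ)) := by
  refine ⟨?_, ?_⟩
  · rw [Ne, Polynomial.map_eq_zero_iff (RingHom.injective _)]
    exact h.1
  · intro α hα
    have h1 : Q.IsRoot (starRingEnd ℂ α) := by
      rw [Polynomial.IsRoot.def] at hα ⊢
      have h2 : (Q.map (starRingEnd ℂ)).eval (starRingEnd ℂ (starRingEnd ℂ α)) =
          starRingEnd ℂ (Q.eval (starRingEnd ℂ α)) := by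
        rw [Polynomial.eval_map_apply]
      rw [Complex.conj_conj, hα] at h2
      exact (map_eq_zero _).1 h2.symm
    have h2 := h.2 _ h1
    rwa [Complex.conj_im, abs_neg] at h2

lemma Adm.neg {Q : ℂ[X]} (h : Adm Q) : Adm (Q.comp (-X)) := by
  refine ⟨?_, ?_⟩
  · intro h0
    apply h.1
    have h1 : (Q.comp (-X)).comp (-X) = Q := by
      rw [comp_assoc]
      simp
    rw [← h1, h0, zero_comp]
  · intro α hα
    have h1 : Q.IsRoot (-α) := by
      rw [Polynomial.IsRoot.def, eval_comp] at hα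
      simpa using hα
    have h2 := h.2 _ h1
    rwa [neg_im, abs_neg] at h2

lemma Adm.good {Q : ℂ[X]} (h : Adm Q) : ∃ x0 : ℝ, Good x0 (opD Q fx) := by
  refine good_all Q.natDegree Q h.1 rfl ?_
  intro α hα h2
  apply h.2 α hα
  rw [h2, abs_of_pos (by have := Real.pi_pos; positivity)]

lemma Adm.one : Adm (1 : ℂ[X]) := by
  refine ⟨one_ne_zero, ?_⟩
  intro α hα
  simp at hα

lemma opD_one (f : ℂ → ℂ) : opD 1 f = f := by
  rw [← C_1, opD_C]
  funext w
  simp

/-- the statement for positive heights and right half -/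
lemma loc1 {Q : ℂ[X]} (h : Adm Q) {ε : ℝ} (hε : 0 < ε) (hε1 : ε ≤ 1) :
    ∃ D T0 : ℝ, 1 ≤ D ∧ 8 ≤ T0 ∧ ∀ t : ℝ, T0 ≤ t → ∀ η : ℝ, 0 ≤ η →
    ((∀ w : ℂ, η < w.re → |w.im - t| ≤ D → fx w ≠ 0) →
      ∀ w : ℂ, η + ε ≤ w.re → w.im = t → opD Q fx w ≠ 0) ∧
    ((∀ w : ℂ, η < w.re → |w.im - t| ≤ D * Real.log t → opD Q fx w ≠ 0) →
      ∀ w : ℂ, η + ε ≤ w.re → w.im = t → fx w ≠ 0) := by
  obtain ⟨x0, hg⟩ := h.good
  obtain ⟨V, t1, hV, ht1, hb⟩ := hg.bw ε hε hε1
  obtain ⟨D, t2, hD, ht2, hf⟩ := hg.fw ε hε hε1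
  refine ⟨max 1 (max V D), max t1 t2, le_max_left _ _, ht1.trans (le_max_left _ _), ?_⟩
  intro t ht η hη
  have i1 : t1 ≤ t := (le_max_left _ _).trans ht
  have i2 : t2 ≤ t := (le_max_right _ _).trans ht
  have hV' : V ≤ max 1 (max V D) := (le_max_left _ _).trans (le_max_right _ _)
  have hD' : D ≤ max 1 (max V D) := (le_max_right _ _).trans (le_max_right _ _)
  have hl : 0 ≤ Real.log t := Real.log_nonneg (by linarith)
  constructor
  · intro hz
    rcases le_total η (1 / 2) with h1 | h1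
    · exact hf t i2 η hη h1 (fun w hw1 hw2 => hz w hw1 (hw2.trans hD'))
    · intro w hw1 hw2
      exact hf t i2 (1 / 2) (by norm_num) le_rfl (fun w hw1 _ => fx_ne_right hw1) w (by linarith) hw2
  · intro hz
    refine hb t i1 η hη (fun w hw1 hw2 => hz w hw1 (hw2.trans ?_))
    exact mul_le_mul_of_nonneg_right hV' hl

/-- the local comparison, all heights, both sides -/
theorem loc {Q : ℂ[X]} (h : Adm Q) {ε : ℝ} (hε : 0 < ε) (hε1 : ε ≤ 1) :
    ∃ D T0 : ℝ, 1 ≤ D ∧ 8 ≤ T0 ∧ ∀ t : ℝ, T0 ≤ |t| → ∀ η : ℝ, 0 ≤ η →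
    ((∀ w : ℂ, η < w.re → |w.im - t| ≤ D → fx w ≠ 0) →
      ∀ w : ℂ, η + ε ≤ |w.re| → w.im = t → opD Q fx w ≠ 0) ∧
    ((∀ w : ℂ, η < w.re → |w.im - t| ≤ D * Real.log |t| → opD Q fx w ≠ 0) →
      ∀ w : ℂ, η + ε ≤ |w.re| → w.im = t → fx w ≠ 0) := by
  obtain ⟨D1, T1, hD1, hT1, h1⟩ := loc1 h hε hε1
  obtain ⟨D2, T2, hD2, hT2, h2⟩ := loc1 h.conj hε hε1
  obtain ⟨D3, T3, hD3, hT3, h3⟩ := loc1 h.neg hε hε1
  obtain ⟨D4, T4, hD4, hT4, h4⟩ := loc1 h.neg.conj hε hε1
  set D := max (max D1 D2) (max D3 D4) with hD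
  have d1 : D1 ≤ D := (le_max_left _ _).trans (le_max_left _ _)
  have d2 : D2 ≤ D := (le_max_right _ _).trans (le_max_left _ _)
  have d3 : D3 ≤ D := (le_max_left _ _).trans (le_max_right _ _)
  have d4 : D4 ≤ D := (le_max_right _ _).trans (le_max_right _ _)
  set T := max (max T1 T2) (max T3 T4) with hT
  have e1 : T1 ≤ T := (le_max_left _ _).trans (le_max_left _ _)
  have e2 : T2 ≤ T := (le_max_right _ _).trans (le_max_left _ _)
  have e3 : T3 ≤ T := (le_max_left _ _).trans (le_max_right _ _)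
  have e4 : T4 ≤ T := (le_max_right _ _).trans (le_max_right _ _)
  refine ⟨D, T, hD1.trans d1, hT1.trans e1, ?_⟩
  intro t ht η hη
  have hfxc : ∀ w : ℂ, fx (starRingEnd ℂ w) ≠ 0 ↔ fx w ≠ 0 := by
    intro w
    rw [fx_conj]
    exact not_congr (map_eq_zero _)
  have hl : 0 ≤ Real.log |t| := Real.log_nonneg (by linarith)
  have hQc : ∀ (P : ℂ[X]) (w : ℂ), opD P fx (starRingEnd ℂ w) ≠ 0 ↔
      opD (P.map (starRingEnd ℂ)) fx w ≠ 0 := by
    intro P w
    rw [opD_conj]
    exact not_congr (map_eq_zero _)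
  rcases le_total 0 t with ht0 | ht0
  · rw [abs_of_nonneg ht0] at ht ⊢
    rw [abs_of_nonneg ht0] at hl
    constructor
    · intro hz w hw1 hw2
      rcases le_total 0 w.re with hr | hr
      · rw [abs_of_nonneg hr] at hw1
        exact (h1 t (e1.trans ht) η hη).1 (fun y a b => hz y a (b.trans d1)) w hw1 hw2
      · rw [abs_of_nonpos hr] at hw1
        have h5 := (h4 t (e4.trans ht) η hη).1 (fun y a b => hz y a (b.trans d4))
          (-(starRingEnd ℂ w)) (by rw [neg_re, conj_re]; exact hw1) (by rw [neg_im, conj_im, neg_neg]; exact hw2)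
        rw [← hQc, map_neg, Complex.conj_conj, ← opD_neg, neg_neg] at h5
        exact h5
    · intro hz w hw1 hw2
      have key := (h1 t (e1.trans ht) η hη).2 (fun y a b => hz y a (b.trans
        (mul_le_mul_of_nonneg_right d1 hl)))
      rcases le_total 0 w.re with hr | hr
      · rw [abs_of_nonneg hr] at hw1
        exact key w hw1 hw2
      · rw [abs_of_nonpos hr] at hw1
        have h5 := key (-(starRingEnd ℂ w)) (by rw [neg_re, conj_re]; exact hw1)
          (by rw [neg_im, conj_im, neg_neg]; exact hw2)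
        rw [fx_even] at h5
        exact (hfxc w).1 h5
  · rw [abs_of_nonpos ht0] at ht ⊢
    rw [abs_of_nonpos ht0] at hl
    constructor
    · intro hz w hw1 hw2
      have hz' : ∀ y : ℂ, η < y.re → |y.im - (-t)| ≤ D → fx y ≠ 0 := by
        intro y a b
        rw [← hfxc]
        refine hz _ (by rw [conj_re]; exact a) ?_
        rw [conj_im]
        have : -y.im - t = -(y.im - (-t)) := by ring
        rw [this, abs_neg]
        exact b
      rcases le_total 0 w.re with hr | hr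
      · rw [abs_of_nonneg hr] at hw1
        have h5 := (h2 (-t) (e2.trans ht) η hη).1 (fun y a b => hz' y a (b.trans d2))
          (starRingEnd ℂ w) (by rw [conj_re]; exact hw1) (by rw [conj_im, hw2])
        rw [← hQc, Complex.conj_conj] at h5
        exact h5
      · rw [abs_of_nonpos hr] at hw1
        have h5 := (h3 (-t) (e3.trans ht) η hη).1 (fun y a b => hz' y a (b.trans d3))
          (-w) (by rw [neg_re]; exact hw1) (by rw [neg_im, hw2])
        rw [← opD_neg, neg_neg] at h5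
        exact h5
    · intro hz w hw1 hw2
      have key := (h2 (-t) (e2.trans ht) η hη).2 (fun y a b => by
        rw [← hQc]
        refine hz _ (by rw [conj_re]; exact a) ?_
        rw [conj_im]
        have : -y.im - t = -(y.im - (-t)) := by ring
        rw [this, abs_neg]
        exact b.trans (mul_le_mul_of_nonneg_right d2 hl))
      rcases le_total 0 w.re with hr | hr
      · rw [abs_of_nonneg hr] at hw1
        have h5 := key (starRingEnd ℂ w) (by rw [conj_re]; exact hw1) (by rw [conj_im, hw2])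
        exact (hfxc w).1 h5
      · rw [abs_of_nonpos hr] at hw1
        have h5 := key (-w) (by rw [neg_re]; exact hw1) (by rw [neg_im, hw2])
        rw [fx_even] at h5
        exact h5

/-- all zeros are in a vertical strip, up to finitely many heights -/
lemma re_bound {Q : ℂ[X]} (h : Adm Q) : ∃ X : ℝ, 0 < X ∧ ∀ w : ℂ, opD Q fx w = 0 → |w.re| ≤ X := by
  obtain ⟨x1, hg1⟩ := h.good
  obtain ⟨x2, hg2⟩ := h.neg.good
  obtain ⟨K1, ρ1, _, hρ1, hr1⟩ := hg1.cl.ri
  obtain ⟨K2, ρ2, _, hρ2, hr2⟩ := hg2.cl.ri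
  have k1 := hg1.two
  have k2 := hg2.two
  refine ⟨x1 + x2 + ρ1 + ρ2, by linarith, ?_⟩
  intro w hw
  by_contra hcon
  push Not at hcon
  have hn : |w.re| ≤ ‖w‖ := Complex.abs_re_le_norm w
  rcases le_total 0 w.re with hr | hr
  · rw [abs_of_nonneg hr] at hcon hn
    exact (hr1 w (by linarith) (by linarith)).1 hw
  · rw [abs_of_nonpos hr] at hcon hn
    have h5 := (hr2 (-w) (by rw [neg_re]; linarith) (by rw [norm_neg]; linarith)).1
    rw [← opD_neg, neg_neg] at h5
    exact h5 hw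

lemma exists_ne {Q : ℂ[X]} (h : Adm Q) : ∃ z, opD Q fx z ≠ 0 := by
  obtain ⟨x1, hg1⟩ := h.good
  obtain ⟨K1, ρ1, _, hρ1, hr1⟩ := hg1.cl.ri
  refine ⟨((|x1| + ρ1 : ℝ) : ℂ), (hr1 _ ?_ ?_).1⟩
  · rw [ofReal_re]
    have := le_abs_self x1
    linarith
  · rw [Complex.norm_real, Real.norm_of_nonneg (by positivity)]
    have := abs_nonneg x1
    linarith

/-- finitely many zeros up to a given height -/
lemma fin_low {Q : ℂ[X]} (h : Adm Q) (T : ℝ) : {w : ℂ | opD Q fx w = 0 ∧ |w.im| ≤ T}.Finite := by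
  obtain ⟨X, hX, hre⟩ := re_bound h
  have h1 := Pool.Agent.H21.Xi.finite_zeros (opD Q fx) (opD_diff Q fx_diff) (exists_ne h)
    (closedBall (0 : ℂ) (X + |T|)) (isCompact_closedBall _ _)
  refine h1.subset ?_
  rintro w ⟨hw1, hw2⟩
  refine ⟨?_, hw1⟩
  rw [mem_closedBall, dist_zero_right]
  refine (Complex.norm_le_abs_re_add_abs_im w).trans ?_
  exact add_le_add (hre w hw1) (hw2.trans (le_abs_self T))

end Pool.Agent.Helper75.HD
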